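import Pool.Agent.Helper74.LD.Lib

/-!
# LD project, module FL: following a face through an open port
-/

set_option autoImplicit false

namespace Pool.Agent.Helper74.LD

open Pool.Agent.Helper2.LD Pool.Agent.Helper74.LD.Lib

/-- Module FL. -/
theorem pFL (hRg : StRg) (hTsee : StTsee) (hMinj : StMinj) (hCls : StCls) (hInner : StInner)
    (hPort : StPort) (hFace : StFace) (hPb : StPb) : StFL := by
  intro V Q Λ B FB W _ _ _ N e c s M lm cx q g σ hP hO
  have hp := cx.par
  have hc := cx.ax
  have hs := cx.ch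
  have hp1 := hp.1
  have hp2 := hp.2
  obtain ⟨ok0, hD0⟩ := hP
  obtain ⟨g1, hg1, hl1, u1, hP1⟩ := hO
  obtain ⟨Good, hGood⟩ : ∃ Good : ℕ → W → Prop, Good = fun j w =>
      lm w = {Kd.kap (c.lb (fa c σ q j))} ∧ M.edist g w ≤ (j : ℕ∞) ∧
        ∃ u' z, c.G.dist u' z ≤ j - 1 ∧ Pt N e c s M lm (.nat true u' (.core z)) w := ⟨_, rfl⟩
  have hdist := hFace.dist N e c hp hc q σ
  have stp : ∀ j w, 1 ≤ j → j + 1 ≤ 2 * e → Good j w → ∃ w', M.Adj w w' ∧ Good (j + 1) w' := by
    intro j w hj1 hj2 hw
    rw [hGood] at hw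
    obtain ⟨lw, dw, u', z, dz, okz, hDz⟩ := hw
    have hPz : Pt N e c s M lm (.nat true u' (.core z)) w := ⟨okz, hDz⟩
    have lz : c.lb z = c.lb (fa c σ q j) := glc (N := N) (hDz.1.trans lw)
    obtain ⟨q', h1, -, h2, -⟩ := hFace.follow N e c hp hc σ ((cw c σ)^[j] q) z lz.symm
    have h3 : fa c σ ((cw c σ)^[j] q) 1 = fa c σ q (j + 1) := by
      unfold fa
      rw [Function.iterate_succ_apply' (cw c σ) j q]
      rfl
    rw [h3] at h2
    obtain ⟨v, hv⟩ : ∃ v, v = fa c σ q' 1 := ⟨_, rfl⟩
    rw [← hv] at h2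
    have hzv : c.G.Adj z v := by
      have h4 := (hFace.dist N e c hp hc q' σ).2.2.2.2 0
      have h5 : fa c σ q' 0 = z := h1
      rw [h5, zero_add, ← hv] at h4
      exact h4
    have dv := step hc u' hzv
    have okv : okT N e c s (.nat true u' (.core v)) := by
      refine ⟨okz.1, trivial, Or.inl ?_⟩
      simp only [lev, GH.own, GH.ht, dep, if_true]
      omega
    have pz : c.G.dist u' v + 1 = c.G.dist u' z → pb N e c s true u' (.core z) =
        (.core v : GH V Q (Kd N Λ B FB)) := fun h =>
      (hPb N e c s hp hc hs true u').1 z v (by omega) hzv h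
    have pv : c.G.dist u' z + 1 = c.G.dist u' v → pb N e c s true u' (.core v) =
        (.core z : GH V Q (Kd N Λ B FB)) := fun h =>
      (hPb N e c s hp hc hs true u').1 v z (by omega) hzv.symm h
    have ne0 : ∀ a b : V, c.G.dist u' a + 1 = c.G.dist u' b →
        (.core b : GH V Q (Kd N Λ B FB)) ≠ .core u' := by
      intro a b h h1
      injection h1 with h1
      rw [h1, SimpleGraph.dist_self] at h
      omega
    have nezv : (.core z : GH V Q (Kd N Λ B FB)) ≠ .core v := by
      intro h
      injection h with h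
      exact hzv.ne h
    have hadj : (TG N e c s).Adj ⟨_, okz⟩ ⟨_, okv⟩ := by
      rcases parity hc u' hzv with h | h
      · exact (adjUp okv okz nezv.symm (ne0 _ _ h.symm) (pv h.symm)).symm
      · exact adjUp okz okv nezv (ne0 _ _ h.symm) (pz h.symm)
    obtain ⟨-, h4, -⟩ := hMinj.nbr N e c s M lm cx ⟨_, okz⟩ w hPz
    obtain ⟨w', ⟨h5, h6⟩, -⟩ := h4 _ hadj
    have h6' : lm w' = {Kd.kap (c.lb v)} := h6
    have dw' : M.edist g w' ≤ ((j + 1 : ℕ) : ℕ∞) := by
      calc M.edist g w' ≤ M.edist g w + M.edist w w' := SimpleGraph.edist_triangle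
        _ ≤ (j : ℕ∞) + 1 := by
          rw [SimpleGraph.edist_eq_one_iff_adj.2 h5]; gcongr
        _ = _ := by push_cast; rfl
    obtain ⟨t, z3, -, h7, h8, h9, h10⟩ := seeM hTsee cx (x := ⟨_, ok0⟩) rfl hD0 (g' := w')
      (fun _ h => by cases h) (fun _ h => by cases h) dw' (by omega) (by omega) h6'
    have h11 : z3 = fa c σ q (j + 1) := by
      apply near hc (u := c.ow q)
      · rw [hdist.1 (j + 1) hj2]; omega
      · rw [h8, h2]
    have h12 : lm w' = {Kd.kap (c.lb (fa c σ q (j + 1)))} := by
      rw [h6', ← h8, h11]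
    refine ⟨w', h5, ?_⟩
    rw [hGood]
    refine ⟨h12, dw', ?_⟩
    rcases Nat.lt_or_ge (c.G.dist u' z) 2 with h13 | h13
    · rcases Nat.lt_or_ge (c.G.dist u' z) 1 with h14 | h14
      · -- `z` is the centre
        have h15 : u' = z := (hc.conn.dist_eq_zero_iff).1 (by omega)
        subst h15
        rcases hPort.core N e c s M lm cx u' w hPz v hzv w' h5 h6' with h16 | ⟨u2, h16, h17⟩
        · exact ⟨u', v, by omega, h16⟩
        · exact ⟨u2, u2, by rw [SimpleGraph.dist_self]; omega, h17⟩
      · have h15 : c.G.dist u' z = 1 := by omega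
        have h16 : c.G.Adj u' z := SimpleGraph.dist_eq_one_iff_adj.1 h15
        by_cases h17 : v = u'
        · subst h17
          exact ⟨v, v, by rw [SimpleGraph.dist_self]; omega,
            hInner N e c s M lm cx v (.core z) w w' (Or.inl ⟨z, h16, rfl⟩) hPz h5 h6'⟩
        · have h18 : c.G.dist u' v = 2 := by
            rcases parity hc u' hzv with h | h
            · omega
            · exfalso
              have h19 : c.G.dist u' v = 0 := by omega
              exact h17 ((hc.conn.dist_eq_zero_iff).1 h19).symm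
          refine ⟨u', v, by omega, ?_⟩
          have hR := (hCls.rg N e c s hp hc hs _ okz (Or.inl ⟨u', z, h16, rfl⟩)).1
          refine sss hRg hMinj cx (x := ⟨_, okz⟩) (y := ⟨_, okv⟩) hR hPz h5 hadj h6.symm ?_
          refine hCls.strong N e c s hp hc hs true u' _ okv (Or.inl ⟨rfl, ?_, ?_, ?_⟩)
          · simp only [lev, GH.own, GH.ht]; omega
          · intro _ h; cases h
          · intro _ h; cases h
    · -- strong
      refine ⟨u', v, by omega, ?_⟩
      have hR : Rg N e c s (2 * N - 1) (.nat true u' (.core z)) := by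
        refine hCls.strong N e c s hp hc hs true u' _ okz (Or.inl ⟨rfl, ?_, ?_, ?_⟩)
        · simp only [lev, GH.own, GH.ht]; omega
        · intro _ h; cases h
        · intro _ h; cases h
      obtain ⟨w2, h14, h15⟩ := (hRg.nbr N e c s M lm cx _ w hR hPz).1 ⟨_, okz⟩ ⟨_, okv⟩ rfl hadj
      have h16 : w2 = w' := same2 hMinj cx h15 h5
        ((ptLab (x := ⟨_, okv⟩) h14).symm.trans h6.symm)
      subst h16
      exact h14
  have good1 : Good 1 g1 := by
    rw [hGood]
    refine ⟨hl1, ?_, u1, u1, by rw [SimpleGraph.dist_self], hP1⟩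
    rw [SimpleGraph.edist_eq_one_iff_adj.2 hg1]
    exact_mod_cast le_refl 1
  have build : ∀ n, 1 ≤ n → n ≤ 2 * e → ∃ p : ℕ → W, p 0 = g ∧
      (∀ j < n, M.Adj (p j) (p (j + 1))) ∧ ∀ j, 1 ≤ j → j ≤ n → Good j (p j) := by
    intro n hn
    induction n, hn using Nat.le_induction with
    | base =>
      intro _
      refine ⟨fun j => if j = 0 then g else g1, rfl, ?_, ?_⟩
      · intro j hj
        have : j = 0 := by omega
        subst this
        exact hg1
      · intro j hj1 hj2
        have : j = 1 := by omega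
        subst this
        exact good1
    | succ n hn ih =>
      intro h1
      obtain ⟨p, h2, h3, h4⟩ := ih (by omega)
      obtain ⟨w', h5, h6⟩ := stp n (p n) hn h1 (h4 n hn (le_refl _))
      refine ⟨fun j => if j ≤ n then p j else w', ?_, ?_, ?_⟩
      · simp only [Nat.zero_le, if_true, h2]
      · intro j hj
        rcases Nat.lt_or_ge j n with h7 | h7
        · simp only [if_pos (by omega : j ≤ n), if_pos (by omega : j + 1 ≤ n)]
          exact h3 j h7
        · have : j = n := by omega
          subst this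
          simp only [le_refl, if_true, if_neg (by omega : ¬ j + 1 ≤ j)]
          exact h5
      · intro j hj1 hj2
        rcases Nat.lt_or_ge n j with h7 | h7
        · have : j = n + 1 := by omega
          subst this
          simp only [if_neg (by omega : ¬ n + 1 ≤ n)]
          exact h6
        · simp only [if_pos h7]
          exact h4 j hj1 h7
  obtain ⟨p, h1, h2, h3⟩ := build (2 * e) (by omega) (le_refl _)
  rw [hGood] at h3
  refine ⟨p, h1, h2, ?_, ?_⟩
  · intro j hj
    rcases Nat.eq_zero_or_pos j with h4 | h4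
    · subst h4
      rw [h1]
      exact hD0.1.symm
    · exact (h3 j h4 hj).1
  · intro j hj1 hj2
    exact (h3 j hj1 hj2).2.2

end Pool.Agent.Helper74.LD
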