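import Pool.Agent.Helper74.LD.Lib

/-!
# LD project, module Gch: free ghosts are complete pendant paths
-/

set_option autoImplicit false

namespace Pool.Agent.Helper74.LD

open Pool.Agent.Helper2.LD Pool.Agent.Helper74.LD.Lib

section

variable {V Q Λ B FB W : Type}

/-- The neighbours of an own ghost of a piece `false`. -/
private theorem ghoNbr {N e : ℕ} {c : Core V Q Λ B FB} {s : Ch V Q} {x y : TV N e c s}
    {q : Q} {j : ℕ} (hj : 1 ≤ j) (hx : x.1 = .nat false (c.ow q) (.gho q j))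
    (hxy : (TG N e c s).Adj x y) :
    (j = 1 ∧ y.1 = .nat false (c.ow q) (.core (c.ow q))) ∨
    (2 ≤ j ∧ y.1 = .nat false (c.ow q) (.gho q (j - 1))) ∨
    (j < 2 * N ∧ y.1 = .nat false (c.ow q) (.gho q (j + 1))) := by
  rcases nbrNat hx hxy with ⟨-, h4⟩ | ⟨h3, h4, h5, h6⟩ | h3
  · simp only [pb, GH.dp] at h4
    split_ifs at h4 with h1
    · exact Or.inl ⟨by omega, h4⟩
    · exact Or.inr (Or.inl ⟨by omega, h4⟩)
  · right; right
    cases h3 with
    | core z =>
      simp only [pb, Bool.false_eq_true, false_and, dite_false] at h6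
      cases h6
    | gho q' j' =>
      simp only [pb, GH.dp] at h6
      split_ifs at h6 with h1
      injection h6 with h7 h8
      subst h7
      have h9 : j' = j + 1 := by omega
      subst h9
      have oky := y.2
      rw [h5] at oky
      exact ⟨by have := oky.2.1.2; omega, h5⟩
    | tru z j =>
      simp only [pb, GH.dp] at h6
      split_ifs at h6
    | fan z l =>
      simp only [pb, GH.dp] at h6
      cases h6
  · exfalso
    have oky := y.2
    rw [h3] at oky
    exact oky.2.2.2.2 rfl q j rfl rfl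

/-- The labels of ghosts determine the position. -/
private theorem ghoPos {N e : ℕ} {c : Core V Q Λ B FB} {a b : Q} {i j : ℕ}
    (hi2 : i ≤ 2 * N) (hj2 : j ≤ 2 * N)
    (h : (gl N e c (.gho a i) : Finset (Kd N Λ B FB)) = gl N e c (.gho b j)) : i = j := by
  by_cases h1 : i = e
  · by_cases h2 : j = e
    · rw [h1, h2]
    · exfalso
      have h3 := glg h2 h.symm
      simp [gl, h1] at h3
  · by_cases h2 : j = e
    · exfalso
      have h3 := glg h1 h
      simp [gl, h2] at h3
    · have h3 : (piK N i : Kd N Λ B FB) ∈ gl N e c (.gho b j) := by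
        rw [← h]; simp [gl, h1]
      simp only [gl, h2, if_false, Finset.mem_insert, Finset.mem_singleton, piK] at h3
      rcases h3 with h3 | h3
      · cases h3
      · injection h3 with h3
        have h4 := congrArg Fin.val h3
        simp only at h4
        rw [Nat.mod_eq_of_lt (by omega), Nat.mod_eq_of_lt (by omega)] at h4
        exact h4

end

/-- Module Gch. -/
theorem pGch (hRg : StRg) (hMinj : StMinj) (hCls : StCls) (hPb : StPb) : StGch := by
  intro V Q Λ B FB W _ _ _ N e c s M lm cx q g g' q1 hlg hgg hlg' hP1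
  have hp := cx.par
  have hc := cx.ax
  have hs := cx.ch
  have hp1 := hp.1
  have hp2 := hp.2
  have Ok : ∀ (r : Q) (j : ℕ), okT N e c s (.nat false (c.ow r) (.gho r j)) →
      ∀ i, 1 ≤ i → i ≤ 2 * N → okT N e c s (.nat false (c.ow r) (.gho r i)) := by
    intro r j h i h1 h2
    refine ⟨h.1, ⟨h1, h2⟩, ?_⟩
    rcases Nat.lt_or_ge i (2 * N) with h3 | h3
    · refine Or.inl ?_
      simp only [lev, GH.own, GH.ht, dep, SimpleGraph.dist_self, Bool.false_eq_true, if_false]
      omega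
    · exact Or.inr ⟨rfl, r, rfl, by rw [show i = 2 * N by omega]⟩
  have bgam : ∀ {b b' : B} {f f' : FB}, (Kd.gam b f : Kd N Λ B FB) = Kd.gam b' f' →
      b = b' ∧ f = f' := by
    intro b b' f f' h
    injection h with h1 h2
    exact ⟨h1, h2⟩
  have glgam : ∀ (r r' : Q) (i : ℕ), i ≠ e →
      Kd.gam (c.bs (c.lb (c.ow r))) (c.fl r) ∈ (gl N e c (.gho r' i) : Finset (Kd N Λ B FB)) →
      c.bs (c.lb (c.ow r)) = c.bs (c.lb (c.ow r')) ∧ c.fl r = c.fl r' := by
    intro r r' i hi h
    simp only [gl, hi, if_false, Finset.mem_insert, Finset.mem_singleton, piK] at h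
    rcases h with h | h
    · exact bgam h
    · cases h
  -- the step
  have stp : ∀ (j : ℕ) (w : W) (r : Q), 1 ≤ j → j < 2 * N →
      Pt N e c s M lm (.nat false (c.ow r) (.gho r j)) w →
      ∃ (w' : W) (r' : Q), M.Adj w w' ∧ c.bs (c.lb (c.ow r')) = c.bs (c.lb (c.ow r)) ∧
        c.fl r' = c.fl r ∧ Pt N e c s M lm (.nat false (c.ow r') (.gho r' (j + 1))) w' := by
    intro j w r hj1 hj2 hP
    obtain ⟨ok, hD⟩ := hP
    have hP : Pt N e c s M lm (.nat false (c.ow r) (.gho r j)) w := ⟨ok, hD⟩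
    have hnR : ¬ Rg N e c s (2 * N) (.nat false (c.ow r) (.gho r j)) :=
      hCls.free N e c s hp hc hs _ ok
        (Or.inr (Or.inr (Or.inr (Or.inr ⟨c.ow r, r, j, rfl, rfl⟩))))
    have ok2 := Ok r j ok (j + 1) (by omega) (by omega)
    have hadj : (TG N e c s).Adj ⟨_, ok⟩ ⟨_, ok2⟩ := by
      refine (adjUp ok2 ok ?_ ?_ ?_).symm
      · intro h; injection h with _ h; omega
      · intro h; cases h
      · simp only [pb, GH.dp, if_neg (by omega : ¬ j + 1 ≤ 1), Nat.add_sub_cancel]
    obtain ⟨-, h4, -⟩ := hMinj.nbr N e c s M lm cx ⟨_, ok⟩ w hP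
    obtain ⟨w', ⟨h5, h6⟩, -⟩ := h4 _ hadj
    have h6' : lm w' = gl N e c (.gho r (j + 1)) := h6
    obtain ⟨t', okt, hDt⟩ := (hMinj.ex N e c s M lm cx).1 w'
    have hPt : Pt N e c s M lm t' w' := ⟨okt, hDt⟩
    have lt : tL N e c s ⟨t', okt⟩ = gl N e c (.gho r (j + 1)) := hDt.1.trans h6'
    obtain ⟨-, -, hn⟩ := hMinj.nbr N e c s M lm cx ⟨t', okt⟩ w' hPt
    obtain ⟨y', ⟨hy1, hy2⟩, -⟩ := hn w h5.symm
    have hy3 : tL N e c s y' = gl N e c (.gho r j) := hy2.trans hD.1.symm
    have nomem : ∀ κ : Kd N Λ B FB, (∀ a, κ ≠ Kd.kap a) → (∀ b f, κ ≠ Kd.gam b f) →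
        (∀ i, κ ≠ Kd.pi i) → ∀ i, κ ∉ (gl N e c (.gho r i) : Finset (Kd N Λ B FB)) := by
      intro κ h1 h2 h3 i hmem
      simp only [gl] at hmem
      split_ifs at hmem with h0
      · simp only [Finset.mem_insert, Finset.mem_singleton] at hmem
        rcases hmem with h | h
        · exact h1 _ h
        · exact h1 _ h
      · simp only [Finset.mem_insert, Finset.mem_singleton] at hmem
        rcases hmem with h | h
        · exact h2 _ _ h
        · exact h3 _ h
    rcases hCls.cls N e c s hp hc hs t' okt with h1 | ⟨u2, w2, h1, rfl⟩ | ⟨u2, q2, h1, rfl⟩ |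
      ⟨u2, rfl⟩ | ⟨b2, u2, rfl⟩ | rfl | ⟨u2, rfl⟩ | ⟨u2, i, rfl⟩ | ⟨u2, l, rfl⟩ |
      ⟨u2, q2, i, h1, rfl⟩
    · exact absurd (star hRg cx hnR hP h5 h1 hPt) id
    · exact absurd (gle hPb hp hc hs (q := r) (j := j + 1) lt.symm) id
    · exfalso
      have h7 := ghoPos (by omega) (by omega) (show (gl N e c (.gho q2 1) :
        Finset (Kd N Λ B FB)) = gl N e c (.gho r (j + 1)) from lt)
      omega
    · exact absurd (gle hPb hp hc hs (q := r) (j := j + 1) lt.symm) id
    · exfalso
      have h7 : Kd.fg 2 ∈ tL N e c s ⟨.pth b2 u2 (2 * N), okt⟩ := by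
        unfold tL tl; simp
      rw [lt] at h7
      exact nomem _ (fun _ h => by cases h) (fun _ _ h => by cases h) (fun _ h => by cases h) _ h7
    · exfalso
      have h7 : Kd.fg 3 ∈ tL N e c s ⟨.rt, okt⟩ := by
        unfold tL tl; simp
      rw [lt] at h7
      exact nomem _ (fun _ h => by cases h) (fun _ _ h => by cases h) (fun _ h => by cases h) _ h7
    · exact absurd (gle hPb hp hc hs (q := r) (j := j + 1) lt.symm) id
    · exfalso
      have h7 : Kd.del (c.lb u2) ∈ tL N e c s ⟨.nat true u2 (.tru u2 i), okt⟩ := by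
        unfold tL tl gl; simp
      rw [lt] at h7
      exact nomem _ (fun _ h => by cases h) (fun _ _ h => by cases h) (fun _ h => by cases h) _ h7
    · exfalso
      have h8 := fanNbr (x := ⟨_, okt⟩) rfl hy1
      have h9 : Kd.del (c.lb u2) ∈ tL N e c s y' := by
        unfold tL; rw [h8]; unfold tl gl; simp
      rw [hy3] at h9
      exact nomem _ (fun _ h => by cases h) (fun _ _ h => by cases h) (fun _ h => by cases h) _ h9
    · subst h1
      have h7 : i = j + 1 := ghoPos (by have := okt.2.1.2; omega) (by omega)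
        (show (gl N e c (.gho q2 i) : Finset (Kd N Λ B FB)) = gl N e c (.gho r (j + 1)) from lt)
      subst h7
      have h8 : c.bs (c.lb (c.ow q2)) = c.bs (c.lb (c.ow r)) ∧ c.fl q2 = c.fl r := by
        by_cases h9 : j + 1 = e
        · -- the label of the neighbour
          rcases ghoNbr (by omega) (x := ⟨_, okt⟩) rfl hy1 with ⟨h10, h11⟩ | ⟨h10, h11⟩ |
            ⟨h10, h11⟩
          · omega
          · have h12 : gl N e c (.gho q2 (j + 1 - 1)) = gl N e c (.gho r j) := by
              rw [← hy3]; unfold tL; rw [h11]; rfl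
            rw [Nat.add_sub_cancel] at h12
            exact glgam q2 r j (by omega) (glg (by omega) h12)
          · have h12 : gl N e c (.gho q2 (j + 1 + 1)) = gl N e c (.gho r j) := by
              rw [← hy3]; unfold tL; rw [h11]; rfl
            exact glgam q2 r j (by omega) (glg (by omega) h12)
        · exact glgam q2 r (j + 1) h9 (glg h9 lt)
      exact ⟨w', q2, h5, h8.1, h8.2, hPt⟩
  have ok1 : okT N e c s (.nat false (c.ow q1) (.gho q1 1)) := hP1.1
  have h1 : gl N e c (.gho q1 1) = gl N e c (.gho q 1) :=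
    (ptLab (x := ⟨_, ok1⟩) hP1).trans hlg'
  have h2 := glgam q1 q 1 (by omega) (glg (by omega) h1)
  have build : ∀ n, 1 ≤ n → n ≤ 2 * N → ∃ (γ : ℕ → W) (r : ℕ → Q), γ 0 = g ∧ γ 1 = g' ∧
      r 1 = q1 ∧ (∀ j < n, M.Adj (γ j) (γ (j + 1))) ∧ ∀ j, 1 ≤ j → j ≤ n →
        c.bs (c.lb (c.ow (r j))) = c.bs (c.lb (c.ow q)) ∧ c.fl (r j) = c.fl q ∧
        Pt N e c s M lm (.nat false (c.ow (r j)) (.gho (r j) j)) (γ j) := by
    intro n hn
    induction n, hn using Nat.le_induction with
    | base =>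
      intro _
      refine ⟨fun j => if j = 0 then g else g', fun _ => q1, rfl, rfl, rfl, ?_, ?_⟩
      · intro j hj
        have : j = 0 := by omega
        subst this
        exact hgg
      · intro j hj1 hj2
        have : j = 1 := by omega
        subst this
        exact ⟨h2.1, h2.2, hP1⟩
    | succ n hn ih =>
      intro h3
      obtain ⟨γ, r, h4, h5, h6, h7, h8⟩ := ih (by omega)
      obtain ⟨h9, h10, h11⟩ := h8 n hn (le_refl _)
      obtain ⟨w', r', h12, h13, h14, h15⟩ := stp n (γ n) (r n) hn (by omega) h11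
      refine ⟨fun j => if j ≤ n then γ j else w', fun j => if j ≤ n then r j else r', ?_, ?_, ?_,
        ?_, ?_⟩
      · simp only [Nat.zero_le, if_true, h4]
      · simp only [if_pos hn, h5]
      · simp only [if_pos hn, h6]
      · intro j hj
        rcases Nat.lt_or_ge j n with h7' | h7'
        · simp only [if_pos (by omega : j ≤ n), if_pos (by omega : j + 1 ≤ n)]
          exact h7 j h7'
        · have : j = n := by omega
          subst this
          simp only [le_refl, if_true, if_neg (by omega : ¬ j + 1 ≤ j)]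
          exact h12
      · intro j hj1 hj2
        rcases Nat.lt_or_ge n j with h7' | h7'
        · have : j = n + 1 := by omega
          subst this
          simp only [if_neg (by omega : ¬ n + 1 ≤ n)]
          exact ⟨h13.trans h9, h14.trans h10, h15⟩
        · simp only [if_pos h7']
          exact h8 j hj1 h7'
  obtain ⟨γ, r, h4, h5, h6, h7, h8⟩ := build (2 * N) (by omega) (le_refl _)
  have ok : ∀ j, 1 ≤ j → j ≤ 2 * N → okT N e c s (.nat false (c.ow (r j)) (.gho (r j) j)) :=
    fun j h9 h10 => (h8 j h9 h10).2.2.1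
  have lγ : ∀ j, 1 ≤ j → j ≤ 2 * N → lm (γ j) = gl N e c (.gho (r j) j) :=
    fun j h9 h10 => (ptLab (x := ⟨_, ok j h9 h10⟩) (h8 j h9 h10).2.2).symm
  refine ⟨γ, h4, h5, h7, ?_⟩
  intro j hj1 hj2
  refine ⟨⟨r j, (h8 j hj1 hj2).1, (h8 j hj1 hj2).2.1, (h8 j hj1 hj2).2.2⟩, ?_⟩
  intro g'' hg''
  obtain ⟨-, -, hn⟩ := hMinj.nbr N e c s M lm cx ⟨_, ok j hj1 hj2⟩ (γ j) (h8 j hj1 hj2).2.2
  obtain ⟨y, ⟨hy1, hy2⟩, -⟩ := hn g'' hg''
  -- the label of the previous vertex
  have prev : M.Adj (γ j) (γ (j - 1)) := by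
    have := h7 (j - 1) (by omega)
    rw [Nat.sub_add_cancel hj1] at this
    exact this.symm
  obtain ⟨y0, ⟨hz1, hz2⟩, -⟩ := hn _ prev
  rcases ghoNbr hj1 (x := ⟨_, ok j hj1 hj2⟩) rfl hy1 with ⟨a1, a2⟩ | ⟨a1, a2⟩ | ⟨a1, a2⟩
  · -- the core hub
    left
    subst a1
    apply same2 hMinj cx hg'' prev
    rw [← hy2, ← hz2]
    rcases ghoNbr hj1 (x := ⟨_, ok 1 hj1 hj2⟩) rfl hz1 with ⟨b1, b2⟩ | ⟨b1, b2⟩ | ⟨b1, b2⟩
    · unfold tL; rw [a2, b2]
    · omega
    · exfalso
      have h9 : gl N e c (.gho (r 1) (1 + 1)) = lm (γ (1 - 1)) := by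
        rw [← hz2]; unfold tL; rw [b2]; rfl
      rw [Nat.sub_self, h4, hlg] at h9
      have h10 := glg (by omega) h9
      simp at h10
  · left
    apply same2 hMinj cx hg'' prev
    rw [← hy2, ← hz2]
    rcases ghoNbr hj1 (x := ⟨_, ok j hj1 hj2⟩) rfl hz1 with ⟨b1, b2⟩ | ⟨b1, b2⟩ | ⟨b1, b2⟩
    · omega
    · unfold tL; rw [a2, b2]
    · exfalso
      have h9 : gl N e c (.gho (r j) (j + 1)) = gl N e c (.gho (r (j - 1)) (j - 1)) := by
        rw [← lγ (j - 1) (by omega) (by omega), ← hz2]; unfold tL; rw [b2]; rfl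
      have h10 := ghoPos (by omega) (by omega) h9
      omega
  · right
    refine ⟨a1, ?_⟩
    have next : M.Adj (γ j) (γ (j + 1)) := h7 j a1
    obtain ⟨y1, ⟨hw1, hw2⟩, -⟩ := hn _ next
    apply same2 hMinj cx hg'' next
    rw [← hy2, ← hw2]
    have h9 := lγ (j + 1) (by omega) (by omega)
    rcases ghoNbr hj1 (x := ⟨_, ok j hj1 hj2⟩) rfl hw1 with ⟨b1, b2⟩ | ⟨b1, b2⟩ | ⟨b1, b2⟩
    · exfalso
      have h10 : ({Kd.kap (c.lb (c.ow (r j)))} : Finset (Kd N Λ B FB)) =
          gl N e c (.gho (r (j + 1)) (j + 1)) := by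
        rw [← h9, ← hw2]; unfold tL; rw [b2]; rfl
      exact gle hPb hp hc hs (q := r (j + 1)) (j := j + 1) h10.symm
    · exfalso
      have h10 : gl N e c (.gho (r j) (j - 1)) = gl N e c (.gho (r (j + 1)) (j + 1)) := by
        rw [← h9, ← hw2]; unfold tL; rw [b2]; rfl
      have h11 := ghoPos (by omega) (by omega) h10
      omega
    · unfold tL; rw [a2, b2]

end Pool.Agent.Helper74.LD
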