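import Pool.Agent.Helper2.LD.St4

/-!
# LD project, module B1: the tree skeleton and its union with `G'` have the same data
-/

set_option autoImplicit false

namespace Pool.Agent.Helper74.LD

open Pool.Agent.Helper2.LD

section

variable {V Q Λ B FB : Type}

private theorem wl (N e : ℕ) (c : Core V Q Λ B FB) (s : Ch V Q) (x y : TV N e c s ⊕ GV N e c)
    (p : (SG N e c s).Walk x y) :
    (∀ a b, x = .inl a → y = .inl b → (TG N e c s).edist a b ≤ (p.length : ℕ∞)) ∧
    (∀ a b, x = .inr a → y = .inr b → (GG N e c).edist a b ≤ (p.length : ℕ∞)) ∧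
    (∀ a b, x = .inl a → y ≠ .inr b) ∧ (∀ a b, x = .inr a → y ≠ .inl b) := by
  induction p with
  | nil =>
    refine ⟨?_, ?_, ?_, ?_⟩
    · rintro a b rfl h; cases h; simp
    · rintro a b rfl h; cases h; simp
    · rintro a b rfl h; cases h
    · rintro a b rfl h; cases h
  | @cons x w y hxw p ih =>
    obtain ⟨h1, h2, h3, h4⟩ := ih
    refine ⟨?_, ?_, ?_, ?_⟩
    · rintro a b rfl rfl
      cases w with
      | inl w =>
        have h5 : (TG N e c s).Adj a w := hxw
        have h6 := h1 w b rfl rfl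
        have h7 : (TG N e c s).edist a w = 1 := SimpleGraph.edist_eq_one_iff_adj.2 h5
        calc (TG N e c s).edist a b ≤ (TG N e c s).edist a w + (TG N e c s).edist w b :=
              SimpleGraph.edist_triangle
          _ ≤ 1 + (p.length : ℕ∞) := by rw [h7]; gcongr
          _ = _ := by rw [SimpleGraph.Walk.length_cons]; push_cast; ring
      | inr w => exact absurd hxw (by simp [SG])
    · rintro a b rfl rfl
      cases w with
      | inr w =>
        have h5 : (GG N e c).Adj a w := hxw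
        have h6 := h2 w b rfl rfl
        have h7 : (GG N e c).edist a w = 1 := SimpleGraph.edist_eq_one_iff_adj.2 h5
        calc (GG N e c).edist a b ≤ (GG N e c).edist a w + (GG N e c).edist w b :=
              SimpleGraph.edist_triangle
          _ ≤ 1 + (p.length : ℕ∞) := by rw [h7]; gcongr
          _ = _ := by rw [SimpleGraph.Walk.length_cons]; push_cast; ring
      | inl w => exact absurd hxw (by simp [SG])
    · rintro a b rfl
      cases w with
      | inl w => exact h3 w b rfl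
      | inr w => exact absurd hxw (by simp [SG])
    · rintro a b rfl
      cases w with
      | inr w => exact h4 w b rfl
      | inl w => exact absurd hxw (by simp [SG])

private theorem dl (N e : ℕ) (c : Core V Q Λ B FB) (s : Ch V Q) (a b : TV N e c s) :
    (SG N e c s).edist (.inl a) (.inl b) = (TG N e c s).edist a b := by
  apply le_antisymm
  · rcases eq_or_ne ((TG N e c s).edist a b) ⊤ with h | h
    · rw [h]; exact le_top
    · obtain ⟨p, hp⟩ := SimpleGraph.exists_walk_of_edist_ne_top h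
      rw [← hp]
      let f : (TG N e c s) →g (SG N e c s) := ⟨Sum.inl, fun h => h⟩
      have := SimpleGraph.edist_le (p.map f)
      rw [SimpleGraph.Walk.length_map] at this
      exact this
  · exact le_iInf fun p => (wl N e c s _ _ p).1 a b rfl rfl

private theorem dr (N e : ℕ) (c : Core V Q Λ B FB) (s : Ch V Q) (a b : GV N e c) :
    (SG N e c s).edist (.inr a) (.inr b) = (GG N e c).edist a b := by
  apply le_antisymm
  · rcases eq_or_ne ((GG N e c).edist a b) ⊤ with h | h
    · rw [h]; exact le_top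
    · obtain ⟨p, hp⟩ := SimpleGraph.exists_walk_of_edist_ne_top h
      rw [← hp]
      let f : (GG N e c) →g (SG N e c s) := ⟨Sum.inr, fun h => h⟩
      have := SimpleGraph.edist_le (p.map f)
      rw [SimpleGraph.Walk.length_map] at this
      exact this
  · exact le_iInf fun p => (wl N e c s _ _ p).2.1 a b rfl rfl

private theorem dlr (N e : ℕ) (c : Core V Q Λ B FB) (s : Ch V Q) (a : TV N e c s)
    (b : GV N e c) : (SG N e c s).edist (.inl a) (.inr b) = ⊤ := by
  by_contra h
  obtain ⟨p, -⟩ := SimpleGraph.exists_walk_of_edist_ne_top h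
  exact (wl N e c s _ _ p).2.2.1 a b rfl rfl

private theorem drl (N e : ℕ) (c : Core V Q Λ B FB) (s : Ch V Q) (a : GV N e c)
    (b : TV N e c s) : (SG N e c s).edist (.inr a) (.inl b) = ⊤ := by
  rw [SimpleGraph.edist_comm]; exact dlr N e c s b a

/-- Far pairs look the same. -/
private theorem farEq {K X Y : Type} (N e : ℕ) (he : e ≤ N) (S : SimpleGraph X)
    (lab : X → Finset K) (S' : SimpleGraph Y) (lab' : Y → Finset K) (x y : X) (x' y' : Y)
    (hl : lab y = lab' y') (h1 : ((2 * N : ℕ) : ℕ∞) < S.edist x y)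
    (h2 : ((2 * N : ℕ) : ℕ∞) < S'.edist x' y') : PairEq N e S lab S' lab' x y x' y' := by
  have a1 : ∀ d : ℕ, d ≤ 2 * N → S.edist x y ≠ (d : ℕ∞) := by
    intro d hd h
    rw [h] at h1
    have : (2 * N : ℕ) < d := by exact_mod_cast h1
    omega
  have a2 : ∀ d : ℕ, d ≤ 2 * N → S'.edist x' y' ≠ (d : ℕ∞) := by
    intro d hd h
    rw [h] at h2
    have : (2 * N : ℕ) < d := by exact_mod_cast h2
    omega
  refine ⟨hl, ?_, ?_, ?_⟩
  · constructor
    · rintro rfl
      exact absurd (SimpleGraph.edist_self (G := S) (v := x)) (by exact_mod_cast a1 0 (by omega))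
    · rintro rfl
      exact absurd (SimpleGraph.edist_self (G := S') (v := x')) (by exact_mod_cast a2 0 (by omega))
  · intro d hd
    exact ⟨fun h => absurd h (a1 d hd), fun h => absurd h (a2 d hd)⟩
  · intro p κ
    constructor
    · rintro ⟨q, hp, hq, h, -⟩
      exact absurd h (a1 _ (by omega))
    · rintro ⟨q, hp, hq, h, -⟩
      exact absurd h (a2 _ (by omega))

variable [Fintype Λ] [Fintype B] [Fintype FB]

private theorem toR {X : Type} (N e : ℕ) (c : Core V Q Λ B FB) (s : Ch V Q) (S : SimpleGraph X)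
    (lab : X → Finset (Kd N Λ B FB)) (x y : X) (g h : GV N e c)
    (hh : PairEq N e S lab (GG N e c) (gL N e c) x y g h) :
    PairEq N e S lab (SG N e c s) (sL N e c s) x y (.inr g) (.inr h) := by
  obtain ⟨h1, h2, h3, h4⟩ := hh
  refine ⟨h1, ?_, ?_, ?_⟩
  · rw [h2]; constructor
    · rintro rfl; rfl
    · intro h; cases h; rfl
  · intro d hd; rw [h3 d hd, dr]
  · intro p κ
    rw [h4 p κ]
    unfold Win
    constructor
    · rintro ⟨q, hp, hq, a1, z, a2, a3, a4⟩
      exact ⟨q, hp, hq, by rw [dr]; exact a1, .inr z, by rw [dr]; exact a2, by rw [dr]; exact a3,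
        a4⟩
    · rintro ⟨q, hp, hq, a1, z, a2, a3, a4⟩
      rw [dr] at a1
      cases z with
      | inl z =>
        rw [drl] at a2
        exact absurd a2 (ENat.top_ne_natCast p)
      | inr z =>
        rw [dr] at a2 a3
        exact ⟨q, hp, hq, a1, z, a2, a3, a4⟩

private theorem toL (N e : ℕ) (c : Core V Q Λ B FB) (s : Ch V Q) (x y : TV N e c s) :
    PairEq N e (TG N e c s) (tL N e c s) (SG N e c s) (sL N e c s) x y (.inl x) (.inl y) := by
  refine ⟨rfl, ?_, ?_, ?_⟩
  · constructor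
    · rintro rfl; rfl
    · intro h; cases h; rfl
  · intro d hd; rw [dl]
  · intro p κ
    unfold Win
    constructor
    · rintro ⟨q, hp, hq, a1, z, a2, a3, a4⟩
      exact ⟨q, hp, hq, by rw [dl]; exact a1, .inl z, by rw [dl]; exact a2, by rw [dl]; exact a3,
        a4⟩
    · rintro ⟨q, hp, hq, a1, z, a2, a3, a4⟩
      rw [dl] at a1
      cases z with
      | inr z =>
        rw [dlr] at a2
        exact absurd a2 (ENat.top_ne_natCast p)
      | inl z =>
        rw [dl] at a2 a3
        exact ⟨q, hp, hq, a1, z, a2, a3, a4⟩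

omit [Fintype Λ] [Fintype B] [Fintype FB] in
private theorem nlb (N e : ℕ) (c : Core V Q Λ B FB) (h : GV N e c) : gL N e c h ∈ NLb N e c := by
  obtain ⟨h, hh⟩ := h
  unfold gL
  cases h with
  | core x => exact Or.inl ⟨x, rfl⟩
  | gho q j => exact Or.inr (Or.inl ⟨q, j, hh.1, hh.2, rfl⟩)
  | tru x j => exact Or.inr (Or.inr ⟨x, j, hh.1, hh.2, rfl⟩)
  | fan x l => exact hh.1

private theorem drOf (N e : ℕ) (hp : Par N e) (c : Core V Q Λ B FB) (s : Ch V Q)
    (y : TV N e c s) (g : GV N e c) (hN : NearEq N e c s y g)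
    (hF1 : ∀ l ∈ NLb N e c, ∃ y', tL N e c s y' = l ∧ ((2 * N : ℕ) : ℕ∞) < (TG N e c s).edist y y')
    (hF2 : ∀ z, ∃ y', tL N e c s y' = tL N e c s z ∧
      ((2 * N : ℕ) : ℕ∞) < (TG N e c s).edist y y') :
    DR N e (TG N e c s) (tL N e c s) (SG N e c s) (sL N e c s) y (.inr g) := by
  have he : e ≤ N := by have := hp.1; omega
  refine ⟨?_, ?_, ?_⟩
  · obtain ⟨h, h1, h2, -⟩ := hN.1 y (by rw [SimpleGraph.edist_self]; exact zero_le)
    rw [h1, ← h2.1 rfl]; rfl
  · intro t
    rcases le_or_gt ((TG N e c s).edist y t) ((2 * N : ℕ) : ℕ∞) with h | h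
    · obtain ⟨h', h1⟩ := hN.1 t h
      exact ⟨.inr h', toR N e c s _ _ _ _ _ _ h1⟩
    · refine ⟨.inl t, farEq N e he _ _ _ _ _ _ _ _ rfl h ?_⟩
      rw [drl]; exact ENat.natCast_lt_top _
  · rintro (t | t)
    · obtain ⟨y', h1, h2⟩ := hF2 t
      refine ⟨y', farEq N e he _ _ _ _ _ _ _ _ h1 h2 ?_⟩
      rw [drl]; exact ENat.natCast_lt_top _
    · rcases le_or_gt ((GG N e c).edist g t) ((2 * N : ℕ) : ℕ∞) with h | h
      · obtain ⟨h', h1⟩ := hN.2 t h
        exact ⟨h', toR N e c s _ _ _ _ _ _ h1⟩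
      · obtain ⟨y', h1, h2⟩ := hF1 _ (nlb N e c t)
        refine ⟨y', farEq N e he _ _ _ _ _ _ _ _ h1 h2 ?_⟩
        rw [dr]; exact h

end

/-- Part B1. -/
theorem pB1 (hNcore : StNcore) (hNtru : StNtru) (hNfan : StNfan) (hNgho : StNgho)
    (hFar : StFar) : StB1 := by
  intro V Q Λ B FB _ _ _ N e c s hp hc hs
  have hp1 := hp.1
  have hp2 := hp.2
  have he : e ≤ N := by omega
  have hL : ∀ x : TV N e c s,
      DR N e (TG N e c s) (tL N e c s) (SG N e c s) (sL N e c s) x (.inl x) := by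
    intro x
    refine ⟨rfl, fun y => ⟨.inl y, toL N e c s x y⟩, ?_⟩
    rintro (y | g)
    · exact ⟨y, toL N e c s x y⟩
    · obtain ⟨y', h1, h2⟩ := hFar.one N e c s hp hc hs x _ (nlb N e c g)
      refine ⟨y', farEq N e he _ _ _ _ _ _ _ _ h1 h2 ?_⟩
      rw [dlr]; exact ENat.natCast_lt_top _
  refine ⟨fun x => ⟨.inl x, hL x⟩, ?_⟩
  have hrr : ∀ u, s.rp (s.rp u) = s.rp u := fun u => hs.rp2 _ _ (hs.rp1 u)
  have hlb : ∀ u, c.lb (s.rp u) = c.lb u := by
    intro u
    have h1 : ((c.lb u, 0) : Λ × ℕ) ∈ TS N c u :=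
      ⟨by simp only; omega, u, rfl, SimpleGraph.dist_self⟩
    rw [← hs.rp1 u] at h1
    obtain ⟨-, x, h2, h3⟩ := h1
    have h4 : s.rp u = x := (hc.conn.dist_eq_zero_iff).1 h3
    rw [h4]; exact h2
  rintro (x | g)
  · exact ⟨x, hL x⟩
  obtain ⟨g0, hg⟩ := g
  cases g0 with
  | core x =>
    have ok : okT N e c s (.nat true (s.rp x) (.core (s.rp x))) := by
      refine ⟨hrr x, trivial, Or.inl ?_⟩
      simp only [lev, GH.own, GH.ht, SimpleGraph.dist_self, dep]
      simp
    refine ⟨⟨_, ok⟩, drOf N e hp c s _ _ (hNcore N e c s hp hc hs x _ _ rfl rfl)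
      (fun l hl => hFar.one N e c s hp hc hs _ l hl)
      (fun z => hFar.two N e c s hp hc hs _ z ⟨s.rp x, Or.inl rfl⟩)⟩
  | tru x j =>
    have ok : okT N e c s (.nat true (s.rp x) (.tru (s.rp x) j)) := by
      refine ⟨hrr x, hg, Or.inl ?_⟩
      simp only [lev, GH.own, GH.ht, SimpleGraph.dist_self, dep]
      have := hg.2
      simp only [if_true]; omega
    refine ⟨⟨_, ok⟩, drOf N e hp c s _ _ (hNtru N e c s hp hc hs x j _ _ rfl rfl)
      (fun l hl => hFar.one N e c s hp hc hs _ l hl)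
      (fun z => hFar.two N e c s hp hc hs _ z ⟨s.rp x, Or.inr (Or.inl ⟨j, rfl⟩)⟩)⟩
  | fan x l =>
    have ok : okT N e c s (.nat true (s.rp x) (.fan (s.rp x) l)) := by
      refine ⟨hrr x, ⟨hg.1, ?_⟩, Or.inl ?_⟩
      · intro j h1 h2
        have := hg.2 j h1 h2
        simp only [gl, hlb] at this ⊢
        exact this
      · simp only [lev, GH.own, GH.ht, SimpleGraph.dist_self, dep, if_true]
        omega
    refine ⟨⟨_, ok⟩, drOf N e hp c s _ _ (hNfan N e c s hp hc hs x l _ _ rfl rfl)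
      (fun l hl => hFar.one N e c s hp hc hs _ l hl)
      (fun z => hFar.two N e c s hp hc hs _ z ⟨s.rp x, Or.inr (Or.inr (Or.inl ⟨l, rfl⟩))⟩)⟩
  | gho q j =>
    obtain ⟨q', h1, h2, -, -⟩ := hc.k7 q (s.rp (c.ow q)) (hlb _).symm
    have ok : okT N e c s (.nat false (s.rp (c.ow q)) (.gho q' j)) := by
      refine ⟨hrr _, hg, ?_⟩
      rcases Nat.lt_or_ge j (2 * N) with h3 | h3
      · refine Or.inl ?_
        simp only [lev, GH.own, GH.ht, dep, h1, SimpleGraph.dist_self]
        simp only [Bool.false_eq_true, if_false]; omega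
      · refine Or.inr ⟨rfl, q', h1, ?_⟩
        have := hg.2
        rw [show j = 2 * N by omega]
    refine ⟨⟨_, ok⟩, drOf N e hp c s _ _ (hNgho N e c s hp hc hs q q' j _ _ rfl h1 h2 rfl)
      (fun l hl => hFar.one N e c s hp hc hs _ l hl)
      (fun z => hFar.two N e c s hp hc hs _ z ⟨s.rp (c.ow q),
        Or.inr (Or.inr (Or.inr ⟨q', j, hg.1, h1, rfl⟩))⟩)⟩

end Pool.Agent.Helper74.LD
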