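import Pool.Agent.Helper2.LD.St4

/-!
# LD project, module Far: labels occur far away
-/

set_option autoImplicit false

namespace Pool.Agent.Helper74.LD

open Pool.Agent.Helper2.LD

section

variable {V Q Λ B FB : Type}

private theorem nlb' (N e : ℕ) (c : Core V Q Λ B FB) (h : GH V Q (Kd N Λ B FB))
    (hh : okG N e c h) : gl N e c h ∈ NLb N e c := by
  cases h with
  | core x => exact Or.inl ⟨x, rfl⟩
  | gho q j => exact Or.inr (Or.inl ⟨q, j, hh.1, hh.2, rfl⟩)
  | tru x j => exact Or.inr (Or.inr ⟨x, j, hh.1, hh.2, rfl⟩)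
  | fan x l => exact hh.1

/-- Two representatives. -/
private theorem other {N e : ℕ} {c : Core V Q Λ B FB} {s : Ch V Q} (hp : Par N e)
    (hc : CoreAx N e c) (hs : ChAx N c s) (u : V) : ∃ u', s.rp u' = u' ∧ u' ≠ u := by
  have hp1 := hp.1
  have hp2 := hp.2
  obtain ⟨x⟩ := hc.conn.nonempty
  obtain ⟨w, hw⟩ := hc.nb x
  have hrr : ∀ u, s.rp (s.rp u) = s.rp u := fun u => hs.rp2 _ _ (hs.rp1 u)
  by_contra hno
  push Not at hno
  have h1 := hno (s.rp x) (hrr x)
  have h2 := hno (s.rp w) (hrr w)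
  have h3 : TS N c x = TS N c w := by
    rw [← hs.rp1 x, ← hs.rp1 w, h1, h2]
  have h4 : ((c.lb x, 0) : Λ × ℕ) ∈ TS N c x :=
    ⟨by simp only; omega, x, rfl, SimpleGraph.dist_self⟩
  rw [h3] at h4
  obtain ⟨-, y, h5, h6⟩ := h4
  have h7 : w = y := (hc.conn.dist_eq_zero_iff).1 h6
  subst h7
  apply hw.ne
  apply hc.k5 x w _ (by rw [h5])
  rw [SimpleGraph.edist_eq_one_iff_adj.2 hw]
  exact_mod_cast (by omega : 1 ≤ 4 * N + 2)

/-- The hubs of the own trunk and the own fans, or of the own ghosts. -/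
private def Own {K : Type} (c : Core V Q Λ B FB) (b : Bool) (u : V) (h : GH V Q K) : Prop :=
  (b = true ∧ ((∃ m, h = .tru u m) ∨ ∃ l, h = .fan u l)) ∨
    (b = false ∧ ∃ q m, c.ow q = u ∧ h = .gho q m)

private theorem ownUp {K : Type} {N e : ℕ} {c : Core V Q Λ B FB} {s : Ch V Q} {b : Bool} {u : V}
    (h : GH V Q K) (ho : Own c b u (pb N e c s b u h)) : Own c b u h := by
  cases h with
  | core z =>
    exfalso
    simp only [pb] at ho
    split_ifs at ho with h1
    · rcases ho with ⟨h2, ⟨m, h3⟩ | ⟨l, h3⟩⟩ | ⟨h2, q, m, h3, h4⟩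
      · cases h3
      · cases h3
      · rw [h1.1] at h2; cases h2
    · rcases ho with ⟨h2, ⟨m, h3⟩ | ⟨l, h3⟩⟩ | ⟨h2, q, m, h3, h4⟩
      · cases h3
      · cases h3
      · cases h4
  | gho q j =>
    simp only [pb, GH.dp] at ho
    split_ifs at ho with h1
    · rcases ho with ⟨h2, ⟨m, h3⟩ | ⟨l, h3⟩⟩ | ⟨h2, q, m, h3, h4⟩
      · cases h3
      · cases h3
      · cases h4
    · rcases ho with ⟨h2, ⟨m, h3⟩ | ⟨l, h3⟩⟩ | ⟨h2, q', m, h3, h4⟩
      · cases h3
      · cases h3
      · cases h4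
        exact Or.inr ⟨h2, q, j, h3, rfl⟩
  | tru x j =>
    simp only [pb, GH.dp] at ho
    split_ifs at ho with h1
    · rcases ho with ⟨h2, ⟨m, h3⟩ | ⟨l, h3⟩⟩ | ⟨h2, q, m, h3, h4⟩
      · cases h3
      · cases h3
      · cases h4
    · rcases ho with ⟨h2, ⟨m, h3⟩ | ⟨l, h3⟩⟩ | ⟨h2, q', m, h3, h4⟩
      · cases h3
        exact Or.inl ⟨h2, Or.inl ⟨j, rfl⟩⟩
      · cases h3
      · cases h4
  | fan x l =>
    simp only [pb, GH.dp] at ho
    rcases ho with ⟨h2, ⟨m, h3⟩ | ⟨l, h3⟩⟩ | ⟨h2, q', m, h3, h4⟩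
    · cases h3
      exact Or.inl ⟨h2, Or.inr ⟨l, rfl⟩⟩
    · cases h3
    · cases h4

private theorem ownUpI {K : Type} {N e : ℕ} {c : Core V Q Λ B FB} {s : Ch V Q} {b : Bool} {u : V}
    (j : ℕ) (h : GH V Q K) (ho : Own c b u ((pb N e c s b u)^[j] h)) : Own c b u h := by
  induction j generalizing h with
  | zero => exact ho
  | succ j ih => exact ownUp h (ih _ ho)

private theorem ownDn {K : Type} {N e : ℕ} {c : Core V Q Λ B FB} {s : Ch V Q} {b : Bool} {u : V}
    (hN : 20 ≤ N) (h : GH V Q K) (ho : Own c b u h) (h1 : 1 < h.ht N) :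
    Own c b u (pb N e c s b u h) ∧ (pb N e c s b u h).ht N + 1 = h.ht N := by
  rcases ho with ⟨h2, ⟨m, rfl⟩ | ⟨l, rfl⟩⟩ | ⟨h2, q, m, h3, rfl⟩
  · simp only [GH.ht] at h1
    simp only [pb, GH.dp, if_neg (by omega : ¬ m ≤ 1), GH.ht]
    exact ⟨Or.inl ⟨h2, Or.inl ⟨_, rfl⟩⟩, by omega⟩
  · simp only [pb, GH.dp, GH.ht]
    exact ⟨Or.inl ⟨h2, Or.inl ⟨_, rfl⟩⟩, by omega⟩
  · simp only [GH.ht] at h1
    simp only [pb, GH.dp, if_neg (by omega : ¬ m ≤ 1), GH.ht]
    exact ⟨Or.inr ⟨h2, q, _, h3, rfl⟩, by omega⟩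

private theorem ownDnI {K : Type} {N e : ℕ} {c : Core V Q Λ B FB} {s : Ch V Q} {b : Bool} {u : V}
    (hN : 20 ≤ N) (i : ℕ) (h : GH V Q K) (ho : Own c b u h) (h1 : i < h.ht N) :
    Own c b u ((pb N e c s b u)^[i] h) := by
  induction i generalizing h with
  | zero => exact ho
  | succ i ih =>
    obtain ⟨h2, h3⟩ := ownDn (e := e) (s := s) hN h ho (by omega)
    exact ih _ h2 (by omega)

private theorem tpI {K : Type} {N e : ℕ} {c : Core V Q Λ B FB} {s : Ch V Q} {b : Bool} {u : V}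
    (j : ℕ) (h : GH V Q K) : (tpar N e c s)^[j] (.nat b u h) =
      .nat b u ((pb N e c s b u)^[j] h) := by
  induction j generalizing h with
  | zero => rfl
  | succ j ih =>
    rw [Function.iterate_succ_apply, Function.iterate_succ_apply]
    exact ih _

private theorem levI (hTok : StTok) {N e : ℕ} {c : Core V Q Λ B FB} {s : Ch V Q} (hp : Par N e)
    (hc : CoreAx N e c) (hs : ChAx N c s) (i : ℕ) (x : TH V Q (Kd N Λ B FB))
    (hx : okT N e c s x) (hi : i ≤ tlev N c x) :
    tlev N c ((tpar N e c s)^[i] x) + i = tlev N c x := by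
  induction i generalizing x with
  | zero => rfl
  | succ i ih =>
    obtain ⟨h1, h2, -⟩ := hTok.ok N e c s hp hc hs x hx (by omega)
    rw [Function.iterate_succ_apply]
    have := ih _ h1 (by omega)
    omega

/-- Caps are far from the hubs in question. -/
private theorem capFar (hTok : StTok) (hTd : StTdist) {N e : ℕ} {c : Core V Q Λ B FB} {s : Ch V Q}
    (hp : Par N e) (hc : CoreAx N e c) (hs : ChAx N c s) (b : Bool) (u : V)
    (x y : TV N e c s) (g h : GH V Q (Kd N Λ B FB)) (hx : x.1 = .nat b u g) (hy : y.1 = .cap b u h)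
    (hg : (b = true ∧ g = .core u) ∨ (Own c b u g ∧ 1 ≤ g.ht N ∧ g.own c = u)) :
    ((2 * N : ℕ) : ℕ∞) < (TG N e c s).edist x y := by
  have hp1 := hp.1
  have hp2 := hp.2
  by_contra hle
  rw [not_lt] at hle
  rw [hTd.inn N e c s hp hc hs x y (by rw [hx, hy]; rfl)] at hle
  obtain ⟨i, j, hi, hj, hij, heq⟩ := hle
  have okx := x.2
  have oky := y.2
  rw [hx] at hi heq okx
  rw [hy] at hj heq oky
  have l1 := levI hTok hp hc hs i _ okx hi
  have l2 := levI hTok hp hc hs j _ oky hj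
  rw [heq] at l1
  have l3 : tlev N c (TH.cap b u h) = dep N b + 1 := by
    simp only [tlev]; rw [oky.2.2.1]
  rw [l3] at l2
  rcases hg with ⟨hb, rfl⟩ | ⟨ho, ht, how⟩
  · subst hb
    have l4 : tlev N c (TH.nat true u (GH.core u) : TH V Q (Kd N Λ B FB)) = 0 := by
      simp only [tlev, lev, GH.own, GH.ht, SimpleGraph.dist_self]
    rw [l4] at l1 hi
    simp only [dep, if_true] at l2
    omega
  · have l4 : tlev N c (TH.nat b u g) = g.ht N := by
      simp only [tlev, lev]; rw [how, SimpleGraph.dist_self]; omega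
    rw [l4] at l1 hi
    have l5 : i < g.ht N := by
      cases b
      · simp only [dep, Bool.false_eq_true, if_false] at l2
        omega
      · simp only [dep, if_true] at l2
        omega
    have l6 := ownDnI (e := e) (s := s) (by omega) i g ho l5
    have l7 : Own c b u h := by
      rw [tpI] at heq
      cases j with
      | zero => cases heq
      | succ j =>
        rw [Function.iterate_succ_apply] at heq
        simp only [tpar] at heq
        rw [tpI] at heq
        injection heq with _ _ h9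
        rw [h9] at l6
        exact ownUpI j h l6
    obtain ⟨-, k1, k2, k3, k4⟩ := oky
    rcases l7 with ⟨rfl, ⟨m, rfl⟩ | ⟨l, rfl⟩⟩ | ⟨rfl, q, m, h3, rfl⟩
    · simp only [lev, GH.own, GH.ht, SimpleGraph.dist_self, dep, if_true] at k2
      have := k1.2
      omega
    · exact k3 rfl l rfl
    · exact k4 rfl q m h3 rfl

private theorem one' (hTd : StTdist) (N e : ℕ) [Fintype Λ] [Fintype B] [Fintype FB]
    (c : Core V Q Λ B FB) (s : Ch V Q) (hp : Par N e) (hc : CoreAx N e c) (hs : ChAx N c s)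
    (x : TV N e c s) (l : Finset (Kd N Λ B FB)) (hl : l ∈ NLb N e c) :
    ∃ y, tL N e c s y = l ∧ ((2 * N : ℕ) : ℕ∞) < (TG N e c s).edist x y := by
  classical
  have hp1 := hp.1
  have hp2 := hp.2
  -- a representative away from `x`
  obtain ⟨u', h1, h2⟩ : ∃ u', s.rp u' = u' ∧ pc x.1 ≠ some (true, u') ∧ ∀ j, x.1 ≠ .pth true u' j := by
    obtain ⟨x, hx⟩ := x
    cases x with
    | nat b u h =>
      obtain ⟨u', h1, h2⟩ := other hp hc hs u
      refine ⟨u', h1, ?_, ?_⟩
      · simp only [pc]; intro h; injection h with h; injection h with _ h; exact h2 h.symm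
      · intro j h; cases h
    | cap b u h =>
      obtain ⟨u', h1, h2⟩ := other hp hc hs u
      refine ⟨u', h1, ?_, ?_⟩
      · simp only [pc]; intro h; injection h with h; injection h with _ h; exact h2 h.symm
      · intro j h; cases h
    | pth b u j =>
      obtain ⟨u', h1, h2⟩ := other hp hc hs u
      refine ⟨u', h1, ?_, ?_⟩
      · simp only [pc]; intro h; cases h
      · intro j h; cases h; exact h2 rfl
    | rt =>
      obtain ⟨v⟩ := hc.conn.nonempty
      obtain ⟨u', h1, h2⟩ := other hp hc hs v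
      refine ⟨u', h1, ?_, ?_⟩
      · simp only [pc]; intro h; cases h
      · intro j h; cases h
  obtain ⟨y, h3, h4⟩ : ∃ y : TV N e c s, tL N e c s y = l ∧ pc y.1 = some (true, u') := by
    by_cases h : ∃ j, 1 ≤ j ∧ j < 2 * N ∧ l = gl N e c (.tru u' j)
    · obtain ⟨j, h5, h6, h7⟩ := h
      refine ⟨⟨.nat true u' (.tru u' j), h1, ⟨h5, h6⟩, Or.inl ?_⟩, h7.symm, rfl⟩
      simp only [lev, GH.own, GH.ht, SimpleGraph.dist_self, dep, if_true]
      omega
    · push Not at h
      refine ⟨⟨.nat true u' (.fan u' l), h1, ⟨hl, h⟩, Or.inl ?_⟩, rfl, rfl⟩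
      simp only [lev, GH.own, GH.ht, SimpleGraph.dist_self, dep, if_true]
      omega
  refine ⟨y, h3, ?_⟩
  by_contra hle
  rw [not_lt, SimpleGraph.edist_comm] at hle
  rcases hTd.near N e c s hp hc hs y x true u' h4 hle with h5 | ⟨j, h5⟩
  · exact h2.1 h5
  · exact h2.2 j h5

end

/-- Module Far. -/
theorem pFar (hTok : StTok) (hTd : StTdist) : StFar where
  one := by
    intro V Q Λ B FB _ _ _ N e c s hp hc hs x l hl
    exact one' hTd N e c s hp hc hs x l hl
  two := by
    intro V Q Λ B FB _ _ _ N e c s hp hc hs x y hx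
    have hp1 := hp.1
    have hp2 := hp.2
    -- the piece of `x`
    obtain ⟨b, u, g, hx1, hru, hg⟩ : ∃ b u g, x.1 = .nat b u g ∧ s.rp u = u ∧
        ((b = true ∧ g = .core u) ∨ (Own c b u g ∧ 1 ≤ g.ht N ∧ g.own c = u)) := by
      have okx := x.2
      obtain ⟨u, h | ⟨j, h⟩ | ⟨l, h⟩ | ⟨q, j, h1, h2, h⟩⟩ := hx
      · rw [h] at okx
        exact ⟨true, u, _, h, okx.1, Or.inl ⟨rfl, rfl⟩⟩
      · rw [h] at okx
        exact ⟨true, u, _, h, okx.1, Or.inr ⟨Or.inl ⟨rfl, Or.inl ⟨j, rfl⟩⟩, okx.2.1.1, rfl⟩⟩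
      · rw [h] at okx
        exact ⟨true, u, _, h, okx.1, Or.inr ⟨Or.inl ⟨rfl, Or.inr ⟨l, rfl⟩⟩,
          by simp only [GH.ht]; omega, rfl⟩⟩
      · rw [h] at okx
        exact ⟨false, u, _, h, okx.1, Or.inr ⟨Or.inr ⟨rfl, q, j, h2, rfl⟩, h1, h2⟩⟩
    have hpx : pc x.1 = some (b, u) := by rw [hx1]; rfl
    by_cases hn : ∃ b' u' h', y.1 = .nat b' u' h'
    · obtain ⟨b', u', h', hy⟩ := hn
      have oky := y.2
      rw [hy] at oky
      obtain ⟨y', h1, h2⟩ := one' hTd N e c s hp hc hs x _ (nlb' N e c h' oky.2.1)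
      refine ⟨y', ?_, h2⟩
      rw [h1]; unfold tL; rw [hy]; rfl
    · refine ⟨y, rfl, ?_⟩
      by_cases hy : pc y.1 = some (b, u)
      · obtain ⟨y, oky⟩ := y
        cases y with
        | nat b' u' h' => exact absurd ⟨b', u', h', rfl⟩ hn
        | cap b' u' h' =>
          simp only [pc] at hy
          injection hy with hy
          injection hy with hb hu
          subst hb; subst hu
          exact capFar hTok hTd hp hc hs _ _ x _ g h' hx1 rfl hg
        | pth b' u' j => simp [pc] at hy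
        | rt => simp [pc] at hy
      · let a : TV N e c s := ⟨.cap b u (cc N s b u), hTok.okc N e c s hp hc hs b u hru⟩
        let a' : TV N e c s := ⟨.pth b u 1, hru, le_refl _, by omega⟩
        rw [hTd.out N e c s hp hc hs x y a a' b u hpx hy rfl rfl]
        have h1 : ((2 * N : ℕ) : ℕ∞) < (TG N e c s).edist x a :=
          capFar hTok hTd hp hc hs b u x a g (cc N s b u) hx1 rfl hg
        refine lt_of_lt_of_le h1 ?_
        rw [add_assoc]
        exact le_self_add

end Pool.Agent.Helper74.LD
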