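import Pool.Agent.Helper74.LD.Lib

/-!
# LD project, module Glue1: a ghost of a piece `true` is not glued to the centre of a piece `false`
-/

set_option autoImplicit false

namespace Pool.Agent.Helper74.LD

open Pool.Agent.Helper2.LD Pool.Agent.Helper74.LD.Lib

private theorem pbFalse {V Q Λ B FB K : Type} {N e : ℕ} {c : Core V Q Λ B FB} {s : Ch V Q} {u : V}
    (j : ℕ) (z : V) : ∃ z', (pb (K := K) N e c s false u)^[j] (.core z) = .core z' := by
  induction j generalizing z with
  | zero => exact ⟨z, rfl⟩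
  | succ j ih =>
    obtain ⟨z', h⟩ := ih (s.pr u z)
    refine ⟨z', ?_⟩
    rw [Function.iterate_succ_apply]
    have : pb (K := K) N e c s false u (.core z) = .core (s.pr u z) := by
      simp only [pb, Bool.false_eq_true, false_and, dite_false]
    rw [this]
    exact h

private theorem tpI {V Q Λ B FB K : Type} {N e : ℕ} {c : Core V Q Λ B FB} {s : Ch V Q} {b : Bool}
    {u : V} (j : ℕ) (h : GH V Q K) : (tpar N e c s)^[j] (.nat b u h) =
      .nat b u ((pb N e c s b u)^[j] h) := by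
  induction j generalizing h with
  | zero => rfl
  | succ j ih =>
    rw [Function.iterate_succ_apply, Function.iterate_succ_apply]
    exact ih _

/-- Module Glue1. -/
theorem pGlue1 (hRg : StRg) (hTsee : StTsee) (hCls : StCls) (hPb : StPb)
    (hTd : StTdist) (hTpos : StTpos) : StGlue1 := by
  intro V Q Λ B FB W _ _ _ N e c s M lm cx q u' g g' hP hP' hgg hl
  have hp := cx.par
  have hc := cx.ax
  have hs := cx.ch
  have hp1 := hp.1
  have hp2 := hp.2
  obtain ⟨ok1, hD1⟩ := hP
  obtain ⟨ok', hD'⟩ := hP'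
  set u := c.ow q with hu
  have hpb := hPb (K := Kd N Λ B FB) N e c s hp hc hs true u
  have hanti := hpb.2.2 q rfl
  have hru : s.rp u = u := ok1.1
  have lg' : lm g' = {Kd.kap (c.lb u)} := by
    rw [← hl]; exact hD'.1.symm
  -- the ghost path
  have okg : ∀ j, 1 ≤ j → j ≤ 2 * e → okT N e c s (.nat true u (.gho q j)) := by
    intro j h1 h2
    refine ⟨hru, ⟨h1, by omega⟩, Or.inl ?_⟩
    simp only [lev, GH.own, GH.ht, dep, if_true, ← hu, SimpleGraph.dist_self]
    omega
  set y := c.ow ((c.nx^[2 * e]) q) with hy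
  have oky : okT N e c s (.nat true u (.core y)) := by
    refine ⟨hru, trivial, Or.inl ?_⟩
    simp only [lev, GH.own, GH.ht, dep, if_true]
    omega
  have levg : ∀ j, lev N c u (.gho q j : GH V Q (Kd N Λ B FB)) = j := by
    intro j
    simp only [lev, GH.own, GH.ht, ← hu, SimpleGraph.dist_self, zero_add]
  have levy : lev N c u (.core y : GH V Q (Kd N Λ B FB)) = 2 * e := by
    simp only [lev, GH.own, GH.ht, add_zero]
    exact hanti.2.2.1
  have strg : ∀ j (h1 : 2 ≤ j) (h2 : j ≤ 2 * e),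
      Rg N e c s (2 * N - 1) (.nat true u (.gho q j)) := by
    intro j h1 h2
    refine hCls.strong N e c s hp hc hs true u _ (okg j (by omega) h2) (Or.inl ⟨rfl, ?_, ?_, ?_⟩)
    · rw [levg]; exact h1
    · intro _ h; cases h
    · intro _ h; cases h
  have stry : Rg N e c s (2 * N - 1) (.nat true u (.core y)) := by
    refine hCls.strong N e c s hp hc hs true u _ oky (Or.inl ⟨rfl, ?_, ?_, ?_⟩)
    · rw [levy]; omega
    · intro _ h; cases h
    · intro _ h; cases h
  have rg1 : Rg N e c s (2 * N) (.nat true u (.gho q 1)) :=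
    (hCls.rg N e c s hp hc hs _ ok1 (Or.inr (Or.inl ⟨u, q, rfl, rfl⟩))).1
  have rgj : ∀ j, 1 ≤ j → j ≤ 2 * e → Rg N e c s (2 * N) (.nat true u (.gho q j)) := by
    intro j h1 h2
    rcases Nat.lt_or_ge j 2 with h3 | h3
    · have : j = 1 := by omega
      subst this
      exact rg1
    · exact rgMono (Nat.sub_le _ _) (strg j h3 h2)
  have adjg : ∀ j (h1 : 1 ≤ j) (h2 : j + 1 ≤ 2 * e),
      (TG N e c s).Adj ⟨_, okg j h1 (by omega)⟩ ⟨_, okg (j + 1) (by omega) h2⟩ := by
    intro j h1 h2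
    refine (adjUp _ _ ?_ ?_ ?_).symm
    · intro h; injection h with _ h; omega
    · intro h; cases h
    · simp only [pb, GH.dp, if_neg (by omega : ¬ j + 1 ≤ 1), Nat.add_sub_cancel]
  have adjy : (TG N e c s).Adj ⟨_, okg (2 * e - 1) (by omega) (by omega)⟩ ⟨_, oky⟩ := by
    refine (adjUp _ _ ?_ ?_ ?_).symm
    · intro h; cases h
    · intro h; injection h with h; exact hanti.1 h
    · exact hpb.2.1 q rfl
  -- partners
  have hex : ∀ j, ∃ γ, 1 ≤ j → j ≤ 2 * e → Pt N e c s M lm (.nat true u (.gho q j)) γ := by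
    intro j
    by_cases h : 1 ≤ j ∧ j ≤ 2 * e
    · obtain ⟨γ, h1, -⟩ := hRg.uniq N e c s M lm cx _ (rgj j h.1 h.2)
      exact ⟨γ, fun _ _ => h1⟩
    · exact ⟨g, fun h1 h2 => absurd ⟨h1, h2⟩ h⟩
  choose γ hγ using hex
  have hγ1 : γ 1 = g :=
    (hRg.uniq N e c s M lm cx _ rg1).unique (hγ 1 (le_refl _) (by omega)) ⟨ok1, hD1⟩
  obtain ⟨yM, hyM, -⟩ := hRg.uniq N e c s M lm cx _ (rgMono (Nat.sub_le _ _) stry)
  have dγ : ∀ j, 1 ≤ j → j ≤ 2 * e → M.edist g' (γ j) ≤ (j : ℕ∞) := by
    intro j h1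
    induction j, h1 using Nat.le_induction with
    | base =>
      intro _
      rw [hγ1, SimpleGraph.edist_eq_one_iff_adj.2 hgg.symm]
      exact_mod_cast le_refl 1
    | succ j h1 ih =>
      intro h2
      have h3 : M.Adj (γ j) (γ (j + 1)) :=
        ss hRg cx (x := ⟨_, okg j h1 (by omega)⟩) (y := ⟨_, okg (j + 1) (by omega) h2⟩)
          (rgj j h1 (by omega)) (hγ j h1 (by omega)) (adjg j h1 h2) (strg (j + 1) (by omega) h2)
          (hγ (j + 1) (by omega) h2)
      calc M.edist g' (γ (j + 1)) ≤ M.edist g' (γ j) + M.edist (γ j) (γ (j + 1)) :=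
            SimpleGraph.edist_triangle
        _ ≤ (j : ℕ∞) + 1 := by
          rw [SimpleGraph.edist_eq_one_iff_adj.2 h3]; gcongr; exact ih (by omega)
        _ = _ := by push_cast; rfl
  have dγ' : ∀ i j, 1 ≤ i → i + j ≤ 2 * e → M.edist (γ i) (γ (i + j)) ≤ (j : ℕ∞) := by
    intro i j h1
    induction j with
    | zero =>
      intro _
      rw [add_zero, SimpleGraph.edist_self]; exact zero_le
    | succ j ih =>
      intro h2
      have h3 : M.Adj (γ (i + j)) (γ (i + j + 1)) :=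
        ss hRg cx (x := ⟨_, okg (i + j) (by omega) (by omega)⟩)
          (y := ⟨_, okg (i + j + 1) (by omega) (by omega)⟩)
          (rgj _ (by omega) (by omega)) (hγ _ (by omega) (by omega)) (adjg _ (by omega) (by omega))
          (strg _ (by omega) (by omega)) (hγ _ (by omega) (by omega))
      calc M.edist (γ i) (γ (i + (j + 1))) ≤ M.edist (γ i) (γ (i + j)) +
            M.edist (γ (i + j)) (γ (i + j + 1)) := SimpleGraph.edist_triangle
        _ ≤ (j : ℕ∞) + 1 := by
          rw [SimpleGraph.edist_eq_one_iff_adj.2 h3]; gcongr; exact ih (by omega)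
        _ = _ := by push_cast; rfl
  have adjM : M.Adj (γ (2 * e - 1)) yM :=
    ss hRg cx (x := ⟨_, okg (2 * e - 1) (by omega) (by omega)⟩) (y := ⟨_, oky⟩)
      (rgj _ (by omega) (by omega)) (hγ _ (by omega) (by omega)) adjy stry hyM
  have dE : M.edist (γ e) yM ≤ (e : ℕ∞) := by
    calc M.edist (γ e) yM ≤ M.edist (γ e) (γ (e + (e - 1))) + M.edist (γ (e + (e - 1))) yM :=
          SimpleGraph.edist_triangle
      _ ≤ ((e - 1 : ℕ) : ℕ∞) + 1 := by
        have h1 : e + (e - 1) = 2 * e - 1 := by omega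
        have h2 := dγ' e (e - 1) (by omega) (by omega)
        rw [h1] at h2 ⊢
        rw [SimpleGraph.edist_eq_one_iff_adj.2 adjM]
        gcongr
      _ = (e : ℕ∞) := by
        obtain ⟨m, hm⟩ : ∃ m, e = m + 1 := ⟨e - 1, by omega⟩
        rw [hm, Nat.add_sub_cancel, Nat.cast_add, Nat.cast_one]
  have dY : M.edist yM g' ≤ ((2 * e : ℕ) : ℕ∞) := by
    calc M.edist yM g' ≤ M.edist yM (γ e) + M.edist (γ e) g' := SimpleGraph.edist_triangle
      _ ≤ (e : ℕ∞) + (e : ℕ∞) := by
        gcongr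
        · rw [SimpleGraph.edist_comm]; exact dE
        · rw [SimpleGraph.edist_comm]; exact dγ e (by omega) (by omega)
      _ = _ := by push_cast; ring
  -- exact distances
  have okr : okT N e c s (.nat true u (.core u)) := by
    refine ⟨hru, trivial, Or.inl ?_⟩
    simp only [lev, GH.own, GH.ht, SimpleGraph.dist_self]
    omega
  have exact' : ∀ (h : GH V Q (Kd N Λ B FB)) (ok : okT N e c s (.nat true u h)) (p : W)
      (_ : Pt N e c s M lm (.nat true u h) p) (_ : ∀ j, h ≠ .tru u j) (_ : ∀ l, h ≠ .fan u l)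
      (_ : lev N c u h ≤ 2 * e) (_ : M.edist p g' ≤ ((2 * e : ℕ) : ℕ∞)),
      M.edist p g' = ((lev N c u h : ℕ) : ℕ∞) := by
    intro h ok p hp' h1 h2 h3 h4
    obtain ⟨ok2, hD2⟩ := hp'
    obtain ⟨t, z, -, h5, h6, h7, h8⟩ := seeM hTsee cx (x := ⟨_, ok2⟩) rfl hD2 (g' := g') h1 h2 h4
      (by omega) (by omega) lg'
    have h9 : z = u := near hc (u := u) (by rw [SimpleGraph.dist_self]; omega) (by rw [h6])
    rw [h9] at h5
    have h10 := hTd.root N e c s hp hc hs t ⟨_, ok2⟩ true u h5 rfl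
    exact h7.symm.trans (SimpleGraph.edist_comm.trans h10)
  have eY : M.edist yM g' = ((2 * e : ℕ) : ℕ∞) := by
    rw [exact' _ oky yM hyM (fun _ h => by cases h) (fun _ h => by cases h) (by rw [levy]) dY,
      levy]
  have eE : M.edist (γ e) g' = (e : ℕ∞) := by
    rw [exact' _ (okg e (by omega) (by omega)) (γ e) (hγ e (by omega) (by omega))
      (fun _ h => by cases h) (fun _ h => by cases h) (by rw [levg]; omega)
      (by
        rw [SimpleGraph.edist_comm]
        exact (dγ e (by omega) (by omega)).trans (by exact_mod_cast (by omega : e ≤ 2 * e))), levg]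
  have eM : M.edist (γ e) yM = (e : ℕ∞) := by
    apply le_antisymm dE
    have h1 : M.edist yM g' ≤ M.edist yM (γ e) + M.edist (γ e) g' := SimpleGraph.edist_triangle
    rw [eY, eE, SimpleGraph.edist_comm] at h1
    obtain ⟨d, hd⟩ : ∃ d : ℕ, M.edist (γ e) yM = (d : ℕ∞) :=
      ENat.ne_top_iff_exists.1 (ne_top_of_le_ne_top (ENat.natCast_ne_top _) dE) |>.imp
        fun _ h => h.symm
    rw [hd] at h1 ⊢
    have h2 : 2 * e ≤ d + e := by exact_mod_cast h1
    exact_mod_cast (by omega : e ≤ d)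
  -- the view from the centre of the piece `false`
  obtain ⟨t2, y2, hPE, h5, h6, h7, h8⟩ := seeM hTsee cx (x := ⟨_, ok'⟩) rfl hD' (g' := yM)
    (a := c.lb y) (d := 2 * e) (fun _ h => by cases h) (fun _ h => by cases h)
    (by rw [SimpleGraph.edist_comm, eY]) (by omega)
    (by simp only [lev, GH.own, GH.ht]; omega)
    (ptLab (x := ⟨_, oky⟩) hyM).symm
  have hroot := hTd.root N e c s hp hc hs ⟨_, ok'⟩ t2 false u' rfl (by rw [h5]; rfl)
  rw [h7, SimpleGraph.edist_comm, eY] at hroot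
  have hlt : tlev N c t2.1 = e + e := by
    have : 2 * e = tlev N c t2.1 := by exact_mod_cast hroot
    omega
  have win : ∀ κ, κ ∈ lm (γ e) → ∃ z : TV N e c s,
      (TG N e c s).edist ⟨_, ok'⟩ z = (e : ℕ∞) ∧ (TG N e c s).edist z t2 = (e : ℕ∞) ∧
      κ ∈ tL N e c s z := by
    intro κ hκ
    have h9 : Win e M lm g' yM e κ := by
      refine ⟨e, le_refl _, le_refl _, ?_, γ e, ?_, eM, hκ⟩
      · rw [SimpleGraph.edist_comm, eY]; congr 1; ring
      · rw [SimpleGraph.edist_comm, eE]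
    obtain ⟨q2, -, h10, h11, z, h12, h13, h14⟩ := (hPE.2.2.2 e κ).2 h9
    have h15 : q2 = e := by
      rw [h7, SimpleGraph.edist_comm, eY] at h11
      have : 2 * e = e + q2 := by exact_mod_cast h11
      omega
    subst h15
    exact ⟨z, h12, h13, h14⟩
  have lγ : lm (γ e) = gl N e c (.gho q e) :=
    (ptLab (x := ⟨_, okg e (by omega) (by omega)⟩) (hγ e (by omega) (by omega))).symm
  have core' : ∀ κ, κ ∈ lm (γ e) → ∃ z', (tpar N e c s)^[e] t2.1 = .nat false u' (.core z') ∧
      κ = Kd.kap (c.lb z') := by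
    intro κ hκ
    obtain ⟨z, h9, h10, h11⟩ := win κ hκ
    have h12 := (hTpos N e c s hp hc hs ⟨_, ok'⟩ t2 z false u' e e rfl (by rw [h5]; rfl) hlt).1
      ⟨h9, h10⟩
    obtain ⟨z', h13⟩ := pbFalse (K := Kd N Λ B FB) (N := N) (e := e) (c := c) (s := s) (u := u') e y2
    refine ⟨z', ?_, ?_⟩
    · rw [h5, tpI, h13]
    · rw [h5, tpI, h13] at h12
      unfold tL at h11
      rw [h12] at h11
      simpa [tl, gl] using h11
  obtain ⟨z1, h9, h10⟩ := core' (Kd.kap (c.lb (c.ow ((c.nx^[e]) q)))) (by rw [lγ]; simp [gl])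
  obtain ⟨z2, h11, h12⟩ := core' (Kd.kap (c.lb (c.ow ((c.nx^[3 * e]) q)))) (by rw [lγ]; simp [gl])
  rw [h9] at h11
  injection h11 with _ _ h11
  injection h11 with h11
  injection h10 with h10
  injection h12 with h12
  apply hanti.2.1
  apply near hc (u := u)
  · rw [hanti.2.2.2.1, hanti.2.2.2.2]; omega
  · rw [h10, h12, h11]

end Pool.Agent.Helper74.LD
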