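import Pool.Agent.Helper2.LD.St4

/-!
# LD project, module Mt: matching hubs around two core vertices of the same type
-/

set_option autoImplicit false

namespace Pool.Agent.Helper74.LD

open Pool.Agent.Helper2.LD

section

variable {V Q Λ B FB : Type}

private theorem ed {N e : ℕ} {c : Core V Q Λ B FB} (h : CoreAx N e c) (x y : V) :
    c.G.edist x y = ((c.G.dist x y : ℕ) : ℕ∞) :=
  (h.conn.preconnected x y).coe_dist_eq_edist.symm

private theorem near {N e : ℕ} {c : Core V Q Λ B FB} (h : CoreAx N e c) {u a b : V}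
    (ha : c.G.dist u a + c.G.dist u b ≤ 4 * N + 2)
    (hb : c.bs (c.lb a) = c.bs (c.lb b)) : a = b := by
  apply h.k5 a b _ hb
  rw [ed h]
  have h1 : c.G.dist a b ≤ c.G.dist a u + c.G.dist u b := h.conn.dist_triangle
  rw [SimpleGraph.dist_comm (u := a) (v := u)] at h1
  exact_mod_cast le_trans h1 ha

private theorem step {N e : ℕ} {c : Core V Q Λ B FB} (h : CoreAx N e c) {a b : V} (u : V)
    (hab : c.G.Adj a b) : c.G.dist u b ≤ c.G.dist u a + 1 := by
  have h1 : c.G.dist u b ≤ c.G.dist u a + c.G.dist a b := h.conn.dist_triangle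
  rw [SimpleGraph.dist_eq_one_iff_adj.2 hab] at h1
  exact h1

private theorem mat {N : ℕ} {c : Core V Q Λ B FB} {x u : V} (hT : TS N c x = TS N c u) (z : V)
    (hz : c.G.dist x z < 2 * N) : ∃ z', c.lb z' = c.lb z ∧ c.G.dist u z' = c.G.dist x z := by
  have h1 : ((c.lb z, c.G.dist x z) : Λ × ℕ) ∈ TS N c x := ⟨hz, z, rfl, rfl⟩
  rw [hT] at h1
  obtain ⟨-, z', h2, h3⟩ := h1
  exact ⟨z', h2, h3⟩

private theorem ff {N e : ℕ} {c : Core V Q Λ B FB} (h : CoreAx N e c) {x u : V}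
    (hT : TS N c x = TS N c u) (f : Q → Q) (f1 : ∀ q, c.G.Adj (c.ow q) (c.ow (f q)))
    (f2 : ∀ q, c.fl (f q) = c.fl q)
    (f3 : ∀ q x', c.lb (c.ow q) = c.lb x' → ∃ q', c.ow q' = x' ∧ c.fl q' = c.fl q ∧
      c.bs (c.lb (c.ow (f q'))) = c.bs (c.lb (c.ow (f q))))
    {q q' : Q} (hl : c.lb (c.ow q) = c.lb (c.ow q'))
    (hd : c.G.dist x (c.ow q) = c.G.dist u (c.ow q')) (hf : c.fl q = c.fl q') :
    ∀ i, c.G.dist x (c.ow q) + i < 2 * N →
      c.lb (c.ow (f^[i] q)) = c.lb (c.ow (f^[i] q')) ∧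
      c.G.dist x (c.ow (f^[i] q)) = c.G.dist u (c.ow (f^[i] q')) ∧
      c.G.dist x (c.ow (f^[i] q)) ≤ c.G.dist x (c.ow q) + i ∧
      c.fl (f^[i] q) = c.fl (f^[i] q') := by
  intro i
  induction i with
  | zero => intro _; exact ⟨hl, hd, le_refl _, hf⟩
  | succ i ih =>
    intro hi
    obtain ⟨h1, h2, h3, h4⟩ := ih (by omega)
    rw [Function.iterate_succ_apply' f i q, Function.iterate_succ_apply' f i q']
    obtain ⟨q'', h5, h6, h7⟩ := f3 (f^[i] q) (c.ow (f^[i] q')) h1
    have h8 : q'' = f^[i] q' := h.k8 _ _ h5 (h6.trans h4)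
    subst h8
    have h9 := step h x (f1 (f^[i] q))
    have h10 := step h u (f1 (f^[i] q'))
    obtain ⟨z, h11, h12⟩ := mat hT (c.ow (f (f^[i] q))) (by omega)
    have h13 : z = c.ow (f (f^[i] q')) := by
      apply near h (u := u)
      · omega
      · rw [h11, h7]
    subst h13
    refine ⟨h11.symm, h12.symm, by omega, ?_⟩
    rw [f2, f2, h4]

private theorem ffp {N e : ℕ} {c : Core V Q Λ B FB} (h : CoreAx N e c) {x u : V}
    (hT : TS N c x = TS N c u) {q q' : Q} (hl : c.lb (c.ow q) = c.lb (c.ow q'))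
    (hd : c.G.dist x (c.ow q) = c.G.dist u (c.ow q')) (hf : c.fl q = c.fl q') (i : ℕ)
    (hi : c.G.dist x (c.ow q) + i < 2 * N) :
      c.lb (c.ow ((c.nx^[i]) q)) = c.lb (c.ow ((c.nx^[i]) q')) ∧
      c.G.dist x (c.ow ((c.nx^[i]) q)) = c.G.dist u (c.ow ((c.nx^[i]) q')) := by
  have h1 := ff h hT c.nx h.adj h.flx
    (fun q x' h0 => by
      obtain ⟨q', h1, h2, h3, -⟩ := h.k7 q x' h0
      exact ⟨q', h1, h2, h3⟩) hl hd hf i hi
  exact ⟨h1.1, h1.2.1⟩

private theorem ffm {N e : ℕ} {c : Core V Q Λ B FB} (h : CoreAx N e c) {x u : V}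
    (hT : TS N c x = TS N c u) {q q' : Q} (hl : c.lb (c.ow q) = c.lb (c.ow q'))
    (hd : c.G.dist x (c.ow q) = c.G.dist u (c.ow q')) (hf : c.fl q = c.fl q') (i : ℕ)
    (hi : c.G.dist x (c.ow q) + i < 2 * N) :
      c.lb (c.ow ((c.nx.symm^[i]) q)) = c.lb (c.ow ((c.nx.symm^[i]) q')) := by
  have h1 := ff h hT c.nx.symm
    (fun q => by
      have := h.adj (c.nx.symm q)
      rw [Equiv.apply_symm_apply] at this
      exact this.symm)
    (fun q => by
      have := h.flx (c.nx.symm q)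
      rw [Equiv.apply_symm_apply] at this
      exact this.symm)
    (fun q x' h0 => by
      obtain ⟨q', h1, h2, -, h3⟩ := h.k7 q x' h0
      exact ⟨q', h1, h2, h3⟩) hl hd hf i hi
  exact h1.1

private theorem back {N e : ℕ} {c : Core V Q Λ B FB} (h : CoreAx N e c) (q : Q) :
    (c.nx.symm^[e]) q = (c.nx^[3 * e]) q := by
  have h1 : (c.nx^[e]) ((c.nx^[3 * e]) q) = q := by
    rw [← Function.iterate_add_apply]
    have : e + 3 * e = 4 * e := by ring
    rw [this]
    exact h.per q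
  have h2 : Function.LeftInverse (c.nx.symm^[e]) (c.nx^[e]) :=
    Function.LeftInverse.iterate (fun y => Equiv.symm_apply_apply _ y) e
  calc (c.nx.symm^[e]) q = (c.nx.symm^[e]) ((c.nx^[e]) ((c.nx^[3 * e]) q)) := by rw [h1]
    _ = _ := h2 _

private theorem lb0 {N e : ℕ} {c : Core V Q Λ B FB} (h : CoreAx N e c) (hp : Par N e) {x u : V}
    (hT : TS N c x = TS N c u) : c.lb x = c.lb u := by
  have hp1 := hp.1
  have hp2 := hp.2
  obtain ⟨z, h1, h2⟩ := mat hT x (by rw [SimpleGraph.dist_self]; omega)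
  rw [SimpleGraph.dist_self] at h2
  have h3 : u = z := (h.conn.dist_eq_zero_iff).1 h2
  subst h3
  exact h1.symm

private theorem lab3 {N e : ℕ} {c : Core V Q Λ B FB} (h : CoreAx N e c) {x u : V}
    (hT : TS N c x = TS N c u) {q q' : Q} (hl : c.lb (c.ow q) = c.lb (c.ow q'))
    (hd : c.G.dist x (c.ow q) = c.G.dist u (c.ow q')) (hf : c.fl q = c.fl q')
    (hi : c.G.dist x (c.ow q) + e < 2 * N) :
      c.lb (c.ow ((c.nx^[3 * e]) q)) = c.lb (c.ow ((c.nx^[3 * e]) q')) := by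
  rw [← back h, ← back h]
  exact ffm h hT hl hd hf e hi

private theorem anti' {N e : ℕ} {c : Core V Q Λ B FB} (hp : Par N e) (h : CoreAx N e c) {x u : V}
    (hT : TS N c x = TS N c u) (r : Q) (z' : V) (hr : c.ow r = x)
    (hl : c.lb (c.ow ((c.nx^[2 * e]) r)) = c.lb z') (hd : c.G.dist u z' = 2 * e) :
    ∃ r', c.ow r' = u ∧ c.fl r' = c.fl r ∧ c.ow ((c.nx^[2 * e]) r') = z' ∧
      c.lb (c.ow ((c.nx^[e]) r')) = c.lb (c.ow ((c.nx^[e]) r)) ∧
      c.lb (c.ow ((c.nx^[3 * e]) r')) = c.lb (c.ow ((c.nx^[3 * e]) r)) := by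
  have hp1 := hp.1
  have hp2 := hp.2
  have h0 := lb0 h hp hT
  obtain ⟨r', h1, h2, -, -⟩ := h.k7 r u (by rw [hr, h0])
  have hx : c.G.dist x (c.ow r) = 0 := by rw [hr, SimpleGraph.dist_self]
  have hu : c.G.dist u (c.ow r') = 0 := by rw [h1, SimpleGraph.dist_self]
  have hl' : c.lb (c.ow r) = c.lb (c.ow r') := by rw [hr, h1, h0]
  have h3 := ffp h hT hl' (hx.trans hu.symm) h2.symm (2 * e) (by omega)
  have h4 := ffp h hT hl' (hx.trans hu.symm) h2.symm e (by omega)
  have h5 := lab3 h hT hl' (hx.trans hu.symm) h2.symm (by omega)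
  refine ⟨r', h1, h2, ?_, h4.1.symm, h5.symm⟩
  have h6 : c.G.dist x (c.ow ((c.nx^[2 * e]) r)) = 2 * e := by
    have := h.iso r (2 * e) (le_refl _)
    rw [hr, ed h] at this
    exact_mod_cast this
  apply near h (u := u)
  · rw [← h3.2, h6, hd]; omega
  · rw [← h3.1, hl]

private theorem par' {N e : ℕ} {c : Core V Q Λ B FB} {s : Ch V Q} (hp : Par N e)
    (h : CoreAx N e c) (hs : ChAx N c s) {x u : V} (hT : TS N c x = TS N c u) {z z' : V}
    (hl : c.lb z = c.lb z') (hd : c.G.dist x z = c.G.dist u z') (hlt : c.G.dist x z ≤ 2 * e)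
    (h0 : c.G.dist x z ≠ 0) (ha : ∀ r, c.ow r = x → z ≠ c.ow ((c.nx^[2 * e]) r)) :
    c.lb (s.pr x z) = c.lb (s.pr u z') ∧ c.G.dist x (s.pr x z) = c.G.dist u (s.pr u z') ∧
      c.G.dist x (s.pr x z) < 2 * N := by
  have hp1 := hp.1
  have hp2 := hp.2
  have hxz : x ≠ z := by
    intro h1
    exact h0 (by rw [h1, SimpleGraph.dist_self])
  have huz : u ≠ z' := by
    intro h1
    exact h0 (by rw [hd, h1, SimpleGraph.dist_self])
  obtain ⟨h1, h2⟩ := hs.pr x z hxz
  obtain ⟨h3, h4⟩ := hs.pr u z' huz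
  obtain ⟨w', h5, h6⟩ := mat hT (s.pr x z) (by omega)
  obtain ⟨w'', h7, h8⟩ := h.k6 z z' (s.pr x z) hl h1
  have h9 : w'' = w' := by
    apply near h (u := u)
    · have := step h u h7
      omega
    · rw [h8, h5]
  subst h9
  have h10 : w'' = s.pr u z' := by
    by_contra hne
    rcases Nat.lt_or_ge (c.G.dist u z') (2 * e) with h11 | h11
    · apply hne
      apply h.k1 u z' w'' (s.pr u z') (c.G.dist u z' - 1) (by omega) _ h7 _ h3 _
      · rw [ed h]; congr 1; omega
      · rw [ed h]; congr 1; omega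
      · rw [ed h]; congr 1; omega
    · have h12 : c.G.dist u z' = 2 * e := by omega
      obtain ⟨q, hq1, hq2, -⟩ := h.k2 u z' w'' (s.pr u z') (by rw [ed h, h12]) h7
        (by rw [ed h]; congr 1; omega) h3 (by rw [ed h]; congr 1; omega) hne
      obtain ⟨r', hr1, -, hr2, -, -⟩ := anti' hp h hT.symm q z hq1 (by rw [hq2, hl]) (by omega)
      exact ha r' hr1 hr2.symm
  subst h10
  exact ⟨h5.symm, h6.symm, by omega⟩

end

/-- Module Mt. -/
theorem pMt : StMt where
  ex := by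
    intro V Q Λ B FB N e c hp h x u hT g hg hd hf
    cases g with
    | core z =>
      obtain ⟨z', h1, h2⟩ := mat hT z hd
      exact ⟨.core z', trivial, h1.symm, h2.symm, hd⟩
    | gho q j =>
      obtain ⟨z', h1, h2⟩ := mat hT (c.ow q) hd
      obtain ⟨q', h3, h4, -, -⟩ := h.k7 q z' h1.symm
      refine ⟨.gho q' j, hg, rfl, h4.symm, ?_, ?_, hd⟩
      · rw [h3, h1]
      · rw [h3, h2]
    | tru z j =>
      obtain ⟨z', h1, h2⟩ := mat hT z hd
      exact ⟨.tru z' j, hg, rfl, h1.symm, h2.symm, hd⟩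
    | fan z l => exact absurd rfl (hf z l)
  symm := by
    intro V Q Λ B FB K N c x u g g' h
    cases g <;> cases g' <;> simp only [Mt] at h ⊢
    · exact ⟨h.1.symm, h.2.1.symm, by rw [← h.2.1]; exact h.2.2⟩
    · exact ⟨h.1.symm, h.2.1.symm, h.2.2.1.symm, h.2.2.2.1.symm,
        by rw [← h.2.2.2.1]; exact h.2.2.2.2⟩
    · exact ⟨h.1.symm, h.2.1.symm, h.2.2.1.symm, by rw [← h.2.2.1]; exact h.2.2.2⟩
  lev := by
    intro V Q Λ B FB K N c x u g g' h
    cases g <;> cases g' <;> simp only [Mt] at h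
    · simp only [Pool.Agent.Helper2.LD.lev, GH.own, GH.ht, h.2.1]
    · simp only [Pool.Agent.Helper2.LD.lev, GH.own, GH.ht, h.2.2.2.1, h.1]
    · simp only [Pool.Agent.Helper2.LD.lev, GH.own, GH.ht, h.2.2.1, h.1]
  uniq := by
    intro V Q Λ B FB K N e c hp h x u g g' g'' h1 h2
    have hp1 := hp.1
    have hp2 := hp.2
    cases g with
    | core z =>
      cases g' <;> simp only [Mt] at h1
      cases g'' <;> simp only [Mt] at h2
      rename_i z' z''
      have h3 : z' = z'' := near h (u := u) (by omega) (by rw [← h1.1, ← h2.1])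
      rw [h3]
    | gho q j =>
      cases g' <;> simp only [Mt] at h1
      cases g'' <;> simp only [Mt] at h2
      rename_i q' j' q'' j''
      have h3 : c.ow q' = c.ow q'' :=
        near h (u := u) (by omega) (by rw [← h1.2.2.1, ← h2.2.2.1])
      have h4 := h.k8 _ _ h3 (h1.2.1.symm.trans h2.2.1)
      rw [h4, ← h1.1, ← h2.1]
    | tru z j =>
      cases g' <;> simp only [Mt] at h1
      cases g'' <;> simp only [Mt] at h2
      rename_i z' j' z'' j''
      have h3 : z' = z'' := near h (u := u) (by omega) (by rw [← h1.2.1, ← h2.2.1])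
      rw [h3, ← h1.1, ← h2.1]
    | fan z l =>
      cases g' <;> simp only [Mt] at h1
  lab := by
    intro V Q Λ B FB N e c hp h x u hT g g' h1 hl
    cases g <;> cases g' <;> simp only [Mt] at h1
    · simp only [gl, h1.1]
    · rename_i q j q' j'
      obtain ⟨rfl, h2, h3, h4, h5⟩ := h1
      simp only [gl]
      split_ifs with h6
      · subst h6
        simp only [Pool.Agent.Helper2.LD.lev, GH.own, GH.ht] at hl
        rw [(ffp h hT h3 h4 h2 j hl).1, lab3 h hT h3 h4 h2 hl]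
      · rw [h2, h3]
    · simp only [gl, h1.1, h1.2.1]
  par := by
    intro V Q Λ B FB K N e c s hp h hs x u hT g g' h1 hl h0 ha
    cases g <;> cases g' <;> simp only [Mt] at h1
    · rename_i z z'
      simp only [Pool.Agent.Helper2.LD.lev, GH.own, GH.ht, add_zero] at hl h0
      have h2 := par' hp h hs hT h1.1 h1.2.1 hl h0 (fun r hr h3 => ha r hr (by rw [h3]))
      simp only [pb, Bool.false_eq_true, false_and, dite_false, Mt]
      exact h2
    · rename_i q j q' j'
      obtain ⟨rfl, h2, h3, h4, h5⟩ := h1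
      simp only [pb, GH.dp]
      split_ifs with h6
      · exact ⟨h3, h4, h5⟩
      · exact ⟨rfl, h2, h3, h4, h5⟩
    · rename_i z j z' j'
      obtain ⟨rfl, h3, h4, h5⟩ := h1
      simp only [pb, GH.dp]
      split_ifs with h6
      · exact ⟨h3, h4, h5⟩
      · exact ⟨rfl, h3, h4, h5⟩
  anti := by
    intro V Q Λ B FB N e c hp h x u hT r z' hr hl hd
    exact anti' hp h hT r z' hr hl hd

end Pool.Agent.Helper74.LD
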