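import Pool.Agent.Helper74.LD.Lib

/-!
# LD project, module Root: the partner of a copy of a centre is unique
-/

set_option autoImplicit false

namespace Pool.Agent.Helper74.LD

open Pool.Agent.Helper2.LD Pool.Agent.Helper74.LD.Lib

/-- Module Root. -/
theorem pRoot (hRg : StRg) (hTsee : StTsee) (hMinj : StMinj) (hCls : StCls) (hPb : StPb)
    (hTd : StTdist) : StRoot := by
  intro V Q Λ B FB W _ _ _ N e c s M lm cx u g hP t hPt
  have hp := cx.par
  have hc := cx.ax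
  have hs := cx.ch
  have hp1 := hp.1
  have hp2 := hp.2
  obtain ⟨okx, hDx⟩ := hP
  have hPx : Pt N e c s M lm (.nat true u (.core u)) g := ⟨okx, hDx⟩
  obtain ⟨okt, hDt⟩ := hPt
  have hPt : Pt N e c s M lm t g := ⟨okt, hDt⟩
  have lt : tL N e c s ⟨t, okt⟩ = {Kd.kap (c.lb u)} := hDt.1.trans hDx.1.symm
  have hun : Rg N e c s (2 * N) t → t = .nat true u (.core u) := fun h =>
    hRg.uniq' N e c s M lm cx t _ g h hPt hPx
  have hsee : ∀ (a b : V) (oka : okT N e c s (.nat true a (.core a)))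
      (_ : DR N e (TG N e c s) (tL N e c s) M lm ⟨_, oka⟩ g)
      (okb : okT N e c s (.nat true b (.core b)))
      (_ : DR N e (TG N e c s) (tL N e c s) M lm ⟨_, okb⟩ g) (l : Λ) (d : ℕ),
      (l, d) ∈ TS N c a → (l, d) ∈ TS N c b := by
    rintro a b oka hDa okb hDb l d ⟨h1, z, h2, h3⟩
    simp only at h1 h2 h3
    have okz : okT N e c s (.nat true a (.core z)) := by
      refine ⟨oka.1, trivial, Or.inl ?_⟩
      simp only [lev, GH.own, GH.ht, dep, if_true]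
      omega
    obtain ⟨g2, h4, -, h5, -⟩ := hDa.2.1 ⟨_, okz⟩
    have h6 := hTd.root N e c s hp hc hs ⟨_, oka⟩ ⟨_, okz⟩ true a rfl rfl
    simp only [tlev, lev, GH.own, GH.ht, add_zero, h3] at h6
    have h7 := (h5 d (by omega)).1 h6
    have h8 : lm g2 = {Kd.kap l} := by
      rw [← h4, ← h2]; rfl
    obtain ⟨t', z', h9, h10, h11, h12, -⟩ := seeM hTsee cx (x := ⟨_, okb⟩) rfl hDb (g' := g2)
      (d := d) (fun _ h => by cases h) (fun _ h => by cases h) (by rw [h7]) (by omega)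
      (by omega) h8
    have h13 := hTd.root N e c s hp hc hs ⟨_, okb⟩ t' true b rfl (by rw [h10]; rfl)
    rw [h12, h7, h10] at h13
    simp only [tlev, lev, GH.own, GH.ht, add_zero] at h13
    exact ⟨h1, z', h11, by exact_mod_cast h13.symm⟩
  rcases hCls.cls N e c s hp hc hs t okt with h1 | ⟨u2, w2, h1, rfl⟩ | ⟨u2, q2, h1, rfl⟩ |
    ⟨u2, rfl⟩ | ⟨b2, u2, rfl⟩ | rfl | ⟨u2, rfl⟩ | ⟨u2, j, rfl⟩ | ⟨u2, l, rfl⟩ | ⟨u2, q2, j, h1, rfl⟩
  · exact hun (rgMono (Nat.sub_le _ _) h1)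
  · exact hun (hCls.rg N e c s hp hc hs _ okt (Or.inl ⟨u2, w2, h1, rfl⟩)).1
  · exact hun (hCls.rg N e c s hp hc hs _ okt (Or.inr (Or.inl ⟨u2, q2, h1, rfl⟩))).1
  · exact hun (hCls.rg N e c s hp hc hs _ okt (Or.inr (Or.inr (Or.inl ⟨u2, rfl⟩)))).1
  · exact hun (hCls.rg N e c s hp hc hs _ okt (Or.inr (Or.inr (Or.inr ⟨b2, u2, rfl⟩)))).1
  · exfalso
    have h1 : Kd.fg 3 ∈ tL N e c s ⟨.rt, okt⟩ := by
      unfold tL tl; simp
    rw [lt] at h1
    simp at h1
  · have hTS : TS N c u2 = TS N c u := by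
      ext ⟨l, d⟩
      exact ⟨hsee u2 u okt hDt okx hDx l d, hsee u u2 okx hDx okt hDt l d⟩
    have h3 : u2 = u := by
      rw [← okt.1, ← okx.1]
      exact hs.rp2 _ _ hTS
    rw [h3]
  · exfalso
    have h1 : Kd.del (c.lb u2) ∈ tL N e c s ⟨.nat true u2 (.tru u2 j), okt⟩ := by
      unfold tL tl gl; simp
    rw [lt] at h1
    simp at h1
  · exfalso
    obtain ⟨w, hw⟩ := hc.nb u
    have hw1 : c.G.dist u w = 1 := SimpleGraph.dist_eq_one_iff_adj.2 hw
    have okw : okT N e c s (.nat true u (.core w)) := by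
      refine ⟨okx.1, trivial, Or.inl ?_⟩
      simp only [lev, GH.own, GH.ht, dep, if_true]
      omega
    have hadj : (TG N e c s).Adj ⟨_, okx⟩ ⟨_, okw⟩ := by
      refine (adjUp okw okx (by intro h; injection h with h; exact hw.ne h.symm)
        (by intro h; injection h with h; exact hw.ne h.symm) ?_).symm
      exact (hPb N e c s hp hc hs true u).1 w u (by omega) hw.symm
        (by rw [SimpleGraph.dist_self, hw1])
    obtain ⟨-, h2, -⟩ := hMinj.nbr N e c s M lm cx ⟨_, okx⟩ g hPx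
    obtain ⟨g', ⟨h3, h4⟩, -⟩ := h2 _ hadj
    obtain ⟨-, -, h5⟩ := hMinj.nbr N e c s M lm cx ⟨_, okt⟩ g hPt
    obtain ⟨y, ⟨h6, h7⟩, -⟩ := h5 g' h3
    have h8 := fanNbr (x := ⟨_, okt⟩) rfl h6
    have h9 : Kd.del (c.lb u2) ∈ tL N e c s y := by
      unfold tL; rw [h8]; unfold tl gl; simp
    rw [h7, h4] at h9
    have h10 : tL N e c s ⟨_, okw⟩ = {Kd.kap (c.lb w)} := rfl
    rw [h10] at h9
    simp at h9
  · exfalso
    exact gle hPb hp hc hs (q := q2) (j := j) lt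

end Pool.Agent.Helper74.LD
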