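import Pool.Agent.Helper2.LD.St5

/-!
# LD project, part B2: common lemmas
-/

set_option autoImplicit false

namespace Pool.Agent.Helper74.LD.Lib

open Pool.Agent.Helper2.LD

section

variable {V Q Λ B FB W : Type}

theorem ed {N e : ℕ} {c : Core V Q Λ B FB} (h : CoreAx N e c) (x y : V) :
    c.G.edist x y = ((c.G.dist x y : ℕ) : ℕ∞) :=
  (h.conn.preconnected x y).coe_dist_eq_edist.symm

theorem near {N e : ℕ} {c : Core V Q Λ B FB} (h : CoreAx N e c) {u a b : V}
    (ha : c.G.dist u a + c.G.dist u b ≤ 4 * N + 2)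
    (hb : c.bs (c.lb a) = c.bs (c.lb b)) : a = b := by
  apply h.k5 a b _ hb
  rw [ed h]
  have h1 : c.G.dist a b ≤ c.G.dist a u + c.G.dist u b := h.conn.dist_triangle
  rw [SimpleGraph.dist_comm (u := a) (v := u)] at h1
  exact_mod_cast le_trans h1 ha

theorem step {N e : ℕ} {c : Core V Q Λ B FB} (h : CoreAx N e c) {a b : V} (u : V)
    (hab : c.G.Adj a b) : c.G.dist u b ≤ c.G.dist u a + 1 := by
  have h1 : c.G.dist u b ≤ c.G.dist u a + c.G.dist a b := h.conn.dist_triangle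
  rw [SimpleGraph.dist_eq_one_iff_adj.2 hab] at h1
  exact h1

private theorem walkCol {G : SimpleGraph V} {col : V → Bool}
    (hcol : ∀ u v, G.Adj u v → col u ≠ col v) {u v : V} (p : G.Walk u v) :
    (col u = col v ↔ p.length % 2 = 0) := by
  induction p with
  | nil => simp
  | @cons u w v h p ih =>
    have h1 := hcol u w h
    rw [SimpleGraph.Walk.length_cons]
    cases hu : col u <;> cases hw : col w <;> cases hv : col v <;>
      simp only [hu, hw, hv, ne_eq, not_true_eq_false, not_false_eq_true, true_iff, false_iff,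
        reduceCtorEq] at h1 ih ⊢ <;> omega

/-- Neighbours have distances differing by exactly one. -/
theorem parity {N e : ℕ} {c : Core V Q Λ B FB} (h : CoreAx N e c) {a b : V} (u : V)
    (hab : c.G.Adj a b) : c.G.dist u b = c.G.dist u a + 1 ∨ c.G.dist u a = c.G.dist u b + 1 := by
  obtain ⟨col, hcol⟩ := h.bip
  have h1 := step h u hab
  have h2 := step h u hab.symm
  obtain ⟨p, hp⟩ := (h.conn.preconnected u a).exists_walk_length_eq_dist
  obtain ⟨p', hp'⟩ := (h.conn.preconnected u b).exists_walk_length_eq_dist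
  have h3 := walkCol hcol p
  have h4 := walkCol hcol p'
  have h5 := hcol a b hab
  rw [hp] at h3
  rw [hp'] at h4
  cases hu : col u <;> cases ha : col a <;> cases hb : col b <;>
      simp only [hu, ha, hb, ne_eq, not_true_eq_false, not_false_eq_true, true_iff, false_iff,
        reduceCtorEq] at h3 h4 h5 <;> omega

theorem nbrNat {N e : ℕ} {c : Core V Q Λ B FB} {s : Ch V Q} {x y : TV N e c s} {b : Bool}
    {u : V} {h : GH V Q (Kd N Λ B FB)} (hx : x.1 = .nat b u h) (hxy : (TG N e c s).Adj x y) :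
    (h ≠ .core u ∧ y.1 = .nat b u (pb N e c s b u h)) ∨
    (∃ h2, h2 ≠ .core u ∧ y.1 = .nat b u h2 ∧ pb N e c s b u h2 = h) ∨ y.1 = .cap b u h := by
  obtain ⟨-, h1 | h1⟩ := hxy
  · rw [hx] at h1
    obtain ⟨y, hy⟩ := y
    cases y with
    | nat b' u' h' =>
      obtain ⟨rfl, rfl, h2, rfl⟩ := h1
      exact Or.inl ⟨h2, rfl⟩
    | cap b' u' h' => exact absurd h1 (by simp [TE])
    | pth b' u' j => exact absurd h1 (by simp [TE])
    | rt => exact absurd h1 (by simp [TE])
  · rw [hx] at h1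
    obtain ⟨y, hy⟩ := y
    cases y with
    | nat b' u' h' =>
      obtain ⟨rfl, rfl, h2, h3⟩ := h1
      exact Or.inr (Or.inl ⟨h', h2, rfl, h3.symm⟩)
    | cap b' u' h' =>
      obtain ⟨rfl, rfl, rfl⟩ := h1
      exact Or.inr (Or.inr rfl)
    | pth b' u' j => exact absurd h1 (by simp [TE])
    | rt => exact absurd h1 (by simp [TE])

theorem adjUp {N e : ℕ} {c : Core V Q Λ B FB} {s : Ch V Q} {b : Bool}
    {u : V} {h h' : GH V Q (Kd N Λ B FB)} (ok : okT N e c s (.nat b u h))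
    (ok' : okT N e c s (.nat b u h')) (hne : h ≠ h') (h0 : h ≠ .core u)
    (hpb : pb N e c s b u h = h') :
    (TG N e c s).Adj ⟨.nat b u h, ok⟩ ⟨.nat b u h', ok'⟩ := by
  refine ⟨?_, Or.inl ⟨rfl, rfl, h0, hpb.symm⟩⟩
  intro h1
  have h2 := congrArg Subtype.val h1
  injection h2 with _ _ h3
  exact hne h3

theorem rgMono {N e : ℕ} {c : Core V Q Λ B FB} {s : Ch V Q} {r r' : ℕ} (hr : r ≤ r')
    {t : TH V Q (Kd N Λ B FB)} (h : Rg N e c s r t) : Rg N e c s r' t := by
  obtain ⟨x, υ, h1, h2, h3⟩ := h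
  exact ⟨x, υ, h1, h2, h3.trans (by exact_mod_cast hr)⟩

theorem glc {N : ℕ} {a b : Λ}
    (h : ({Kd.kap a} : Finset (Kd N Λ B FB)) = {Kd.kap b}) : a = b := by
  rw [Finset.singleton_inj] at h
  injection h

theorem glg {N e : ℕ} {c : Core V Q Λ B FB} {q : Q} {j : ℕ} {l : Finset (Kd N Λ B FB)}
    (hj : j ≠ e) (h : gl N e c (.gho q j) = l) :
    Kd.gam (c.bs (c.lb (c.ow q))) (c.fl q) ∈ l := by
  rw [← h]
  simp [gl, hj]

/-- The label of an `e`-ghost is not a single kind. -/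
theorem gle (hPb : StPb) {N e : ℕ} {c : Core V Q Λ B FB} {s : Ch V Q} (hp : Par N e)
    (hc : CoreAx N e c) (hs : ChAx N c s) {q : Q} {a : Λ} {j : ℕ}
    (h : gl N e c (.gho q j) = {Kd.kap a}) : False := by
  have hp1 := hp.1
  by_cases h2 : j = e
  · subst h2
    simp only [gl, if_true] at h
    have h4 := ((hPb (K := Kd N Λ B FB) N j c s hp hc hs true (c.ow q)).2.2 q rfl)
    have h5 : Kd.kap (c.lb (c.ow ((c.nx^[j]) q))) ∈ ({Kd.kap a} : Finset (Kd N Λ B FB)) := by
      rw [← h]; simp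
    have h6 : Kd.kap (c.lb (c.ow ((c.nx^[3 * j]) q))) ∈
        ({Kd.kap a} : Finset (Kd N Λ B FB)) := by
      rw [← h]; simp
    rw [Finset.mem_singleton] at h5 h6
    injection h5 with h5
    injection h6 with h6
    apply h4.2.1
    apply near hc (u := c.ow q)
    · rw [h4.2.2.2.1, h4.2.2.2.2]; omega
    · rw [h5, h6]
  · have := glg h2 h
    simp at this

theorem child (hTok : StTok) {N e : ℕ} {c : Core V Q Λ B FB} {s : Ch V Q} (hp : Par N e)
    (hc : CoreAx N e c) (hs : ChAx N c s) (b : Bool) (u2 : V) (h1 h2 : GH V Q (Kd N Λ B FB))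
    (ok : okT N e c s (.nat b u2 h2)) (h3 : h2 ≠ .core u2) (h4 : pb N e c s b u2 h2 = h1) :
    lev N c u2 h2 = lev N c u2 h1 + 1 := by
  by_cases h5 : lev N c u2 h2 = 0
  · exfalso
    rcases hTok.zero N e c s hp hc hs _ ok h5 with h6 | ⟨b', u', -, h6⟩
    · cases h6
    · injection h6 with _ h7 h8
      subst h7
      exact h3 h8
  · obtain ⟨-, h6, -⟩ := hTok.ok N e c s hp hc hs _ ok h5
    simp only [tpar, h4] at h6
    exact h6.symm

/-- The neighbours of an own fan. -/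
theorem fanNbr {N e : ℕ} {c : Core V Q Λ B FB} {s : Ch V Q} {x y : TV N e c s}
    {u : V} {l : Finset (Kd N Λ B FB)} (hx : x.1 = .nat true u (.fan u l))
    (hxy : (TG N e c s).Adj x y) : y.1 = .nat true u (.tru u (2 * N - 1)) := by
  rcases nbrNat hx hxy with ⟨-, h4⟩ | ⟨h3, h4, h5, h6⟩ | h3
  · exact h4
  · exfalso
    cases h3 with
    | core z =>
      simp only [pb] at h6
      split_ifs at h6
    | gho q j =>
      simp only [pb, GH.dp] at h6
      split_ifs at h6
    | tru z j =>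
      simp only [pb, GH.dp] at h6
      split_ifs at h6
    | fan z l =>
      simp only [pb, GH.dp] at h6
      cases h6
  · exfalso
    have oky := y.2
    rw [h3] at oky
    exact oky.2.2.2.1 rfl l rfl

variable [Fintype Λ] [Fintype B] [Fintype FB]

theorem ptLab {N e : ℕ} {c : Core V Q Λ B FB} {s : Ch V Q}
    {M : SimpleGraph W} {lm : W → Finset (Kd N Λ B FB)} {x : TV N e c s} {g : W}
    (h : Pt N e c s M lm x.1 g) : tL N e c s x = lm g := by
  obtain ⟨ok, hD⟩ := h
  exact hD.1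

/-- Argument (two stars). -/
theorem ss (hRg : StRg) {N e : ℕ} {c : Core V Q Λ B FB} {s : Ch V Q}
    {M : SimpleGraph W} {lm : W → Finset (Kd N Λ B FB)} (cx : Cx N e c s M lm)
    {x y : TV N e c s} {g g' : W} (hx : Rg N e c s (2 * N) x.1) (hP : Pt N e c s M lm x.1 g)
    (hxy : (TG N e c s).Adj x y) (hy : Rg N e c s (2 * N - 1) y.1)
    (hP' : Pt N e c s M lm y.1 g') : M.Adj g g' := by
  obtain ⟨g3, h2, h3⟩ := (hRg.nbr N e c s M lm cx y.1 g' hy hP').1 y x rfl hxy.symm
  have h4 : g3 = g := (hRg.uniq N e c s M lm cx x.1 hx).unique h2 hP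
  subst h4
  exact h3.symm

/-- Argument (three stars). -/
theorem sss (hRg : StRg) (hMinj : StMinj) {N e : ℕ} {c : Core V Q Λ B FB} {s : Ch V Q}
    {M : SimpleGraph W} {lm : W → Finset (Kd N Λ B FB)} (cx : Cx N e c s M lm)
    {x y : TV N e c s} {g' g : W} (hx : Rg N e c s (2 * N) x.1) (hP : Pt N e c s M lm x.1 g')
    (hg : M.Adj g' g) (hxy : (TG N e c s).Adj x y) (hl : tL N e c s y = lm g)
    (hy : Rg N e c s (2 * N - 1) y.1) : Pt N e c s M lm y.1 g := by
  obtain ⟨g'', h1, -⟩ := hRg.uniq N e c s M lm cx y.1 (rgMono (Nat.sub_le _ _) hy)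
  have h3 := ss hRg cx hx hP hxy hy h1
  have h5 : lm g'' = lm g := by
    rw [← hl, ptLab h1]
  have h6 : g'' = g := by
    by_contra hne
    apply hMinj.two N e c s M lm cx g'' g hne _ h5
    calc M.edist g'' g ≤ M.edist g'' g' + M.edist g' g := SimpleGraph.edist_triangle
      _ = 2 := by
        rw [SimpleGraph.edist_eq_one_iff_adj.2 h3.symm, SimpleGraph.edist_eq_one_iff_adj.2 hg]
        norm_num
  subst h6
  exact h1

/-- Argument (one star). -/
theorem star (hRg : StRg) {N e : ℕ} {c : Core V Q Λ B FB} {s : Ch V Q}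
    {M : SimpleGraph W} {lm : W → Finset (Kd N Λ B FB)} (cx : Cx N e c s M lm)
    {t t' : TH V Q (Kd N Λ B FB)} {g g' : W} (ht : ¬ Rg N e c s (2 * N) t)
    (hP : Pt N e c s M lm t g) (hg : M.Adj g g') (ht' : Rg N e c s (2 * N - 1) t')
    (hP' : Pt N e c s M lm t' g') : False := by
  have hN : 1 ≤ 2 * N := by
    have := cx.par.1
    have := cx.par.2
    omega
  obtain ⟨x, y, h1, h2, h3⟩ := (hRg.nbr N e c s M lm cx t' g' ht' hP').2 g hg.symm
  have h4 : Rg N e c s (2 * N) y.1 := by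
    obtain ⟨x', υ, h5, h6, h7⟩ := ht'
    have h8 : x' = x := Subtype.ext (h5.trans h1.symm)
    subst h8
    refine ⟨y, υ, rfl, h6, ?_⟩
    calc (TG N e c s).edist υ y ≤ (TG N e c s).edist υ x' + (TG N e c s).edist x' y :=
          SimpleGraph.edist_triangle
      _ ≤ ((2 * N - 1 : ℕ) : ℕ∞) + 1 := by
        rw [SimpleGraph.edist_eq_one_iff_adj.2 h2]; gcongr
      _ = ((2 * N : ℕ) : ℕ∞) := by
        obtain ⟨m, hm⟩ : ∃ m, 2 * N = m + 1 := ⟨2 * N - 1, by omega⟩
        rw [hm, Nat.add_sub_cancel, Nat.cast_add, Nat.cast_one]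
  have h5 := hRg.uniq' N e c s M lm cx _ _ g h4 h3 hP
  rw [h5] at h4
  exact ht h4

/-- Two neighbours with the same label. -/
theorem same2 (hMinj : StMinj) {N e : ℕ} {c : Core V Q Λ B FB} {s : Ch V Q}
    {M : SimpleGraph W} {lm : W → Finset (Kd N Λ B FB)} (cx : Cx N e c s M lm)
    {g a b : W} (ha : M.Adj g a) (hb : M.Adj g b) (hl : lm a = lm b) : a = b := by
  by_contra hne
  apply hMinj.two N e c s M lm cx a b hne _ hl
  calc M.edist a b ≤ M.edist a g + M.edist g b := SimpleGraph.edist_triangle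
    _ = 2 := by
      rw [SimpleGraph.edist_eq_one_iff_adj.2 ha.symm, SimpleGraph.edist_eq_one_iff_adj.2 hb]
      norm_num

/-- What a copy of a hub sees. -/
theorem seeM (hTsee : StTsee) {N e : ℕ} {c : Core V Q Λ B FB} {s : Ch V Q}
    {M : SimpleGraph W} {lm : W → Finset (Kd N Λ B FB)} (cx : Cx N e c s M lm)
    {b : Bool} {u : V} {h : GH V Q (Kd N Λ B FB)} {x : TV N e c s} (hx : x.1 = .nat b u h)
    {g : W} (hD : DR N e (TG N e c s) (tL N e c s) M lm x g) {g' : W} {a : Λ} {d : ℕ}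
    (h1 : ∀ j, h ≠ .tru u j) (h2 : ∀ l, h ≠ .fan u l) (hd : M.edist g g' ≤ (d : ℕ∞))
    (hd1 : d ≤ 2 * N) (hd2 : d < 2 * N + lev N c u h) (hl : lm g' = {Kd.kap a}) :
    ∃ (t : TV N e c s) (z : V), PairEq N e (TG N e c s) (tL N e c s) M lm x t g g' ∧
      t.1 = .nat b u (.core z) ∧ c.lb z = a ∧ (TG N e c s).edist x t = M.edist g g' ∧
      c.G.dist u z ≤ 2 * N := by
  obtain ⟨t, hP⟩ := hD.2.2 g'
  obtain ⟨d', h11⟩ : ∃ d' : ℕ, M.edist g g' = (d' : ℕ∞) :=
    ENat.ne_top_iff_exists.1 (ne_top_of_le_ne_top (ENat.natCast_ne_top _) hd) |>.imp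
      fun _ h => h.symm
  have h12 : d' ≤ d := by
    rw [h11] at hd; exact_mod_cast hd
  have h13 := (hP.2.2.1 d' (by omega)).2 h11
  obtain ⟨z, h14, h15⟩ := hTsee.core N e c s cx.par cx.ax cx.ch x t b u h a d' hx h1 h2 h13
    (by omega) (by omega) (hP.1.trans hl)
  refine ⟨t, z, hP, h14, h15, by rw [h13, h11], ?_⟩
  have okt := t.2
  rw [h14] at okt
  have h19 := okt.2.2
  cases b
  · rcases h19 with h19 | ⟨-, q, -, h19⟩
    · simp only [lev, GH.own, GH.ht, dep, Bool.false_eq_true, if_false] at h19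
      omega
    · cases h19
  · simp only [lev, GH.own, GH.ht, dep, if_true, Bool.true_eq_false, false_and, or_false] at h19
    omega

end

end Pool.Agent.Helper74.LD.Lib
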