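import Pool.Agent.Helper2.LD.St5

/-!
# LD project, module Inner: the inner neighbour of a hub of level one of a piece `true`
-/

set_option autoImplicit false

namespace Pool.Agent.Helper74.LD

open Pool.Agent.Helper2.LD

section

variable {V Q Λ B FB W : Type}

private theorem nbrNat {N e : ℕ} {c : Core V Q Λ B FB} {s : Ch V Q} {x y : TV N e c s} {b : Bool}
    {u : V} {h : GH V Q (Kd N Λ B FB)} (hx : x.1 = .nat b u h) (hxy : (TG N e c s).Adj x y) :
    (h ≠ .core u ∧ y.1 = .nat b u (pb N e c s b u h)) ∨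
    (∃ h2, h2 ≠ .core u ∧ y.1 = .nat b u h2 ∧ pb N e c s b u h2 = h) ∨ y.1 = .cap b u h := by
  obtain ⟨-, h1 | h1⟩ := hxy
  · rw [hx] at h1
    obtain ⟨y, hy⟩ := y
    cases y with
    | nat b' u' h' =>
      obtain ⟨rfl, rfl, h2, rfl⟩ := h1
      exact Or.inl ⟨h2, rfl⟩
    | cap b' u' h' => exact absurd h1 (by simp [TE])
    | pth b' u' j => exact absurd h1 (by simp [TE])
    | rt => exact absurd h1 (by simp [TE])
  · rw [hx] at h1
    obtain ⟨y, hy⟩ := y
    cases y with
    | nat b' u' h' =>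
      obtain ⟨rfl, rfl, h2, h3⟩ := h1
      exact Or.inr (Or.inl ⟨h', h2, rfl, h3.symm⟩)
    | cap b' u' h' =>
      obtain ⟨rfl, rfl, rfl⟩ := h1
      exact Or.inr (Or.inr rfl)
    | pth b' u' j => exact absurd h1 (by simp [TE])
    | rt => exact absurd h1 (by simp [TE])

private theorem rgMono {N e : ℕ} {c : Core V Q Λ B FB} {s : Ch V Q} {r r' : ℕ} (hr : r ≤ r')
    {t : TH V Q (Kd N Λ B FB)} (h : Rg N e c s r t) : Rg N e c s r' t := by
  obtain ⟨x, υ, h1, h2, h3⟩ := h
  exact ⟨x, υ, h1, h2, h3.trans (by exact_mod_cast hr)⟩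

variable [Fintype Λ] [Fintype B] [Fintype FB]

/-- Argument (three stars). -/
private theorem sss (hRg : StRg) (hMinj : StMinj) {N e : ℕ} {c : Core V Q Λ B FB} {s : Ch V Q}
    {M : SimpleGraph W} {lm : W → Finset (Kd N Λ B FB)} (cx : Cx N e c s M lm)
    {x y : TV N e c s} {g' g : W} (hx : Rg N e c s (2 * N) x.1) (hP : Pt N e c s M lm x.1 g')
    (hg : M.Adj g' g) (hxy : (TG N e c s).Adj x y) (hl : tL N e c s y = lm g)
    (hy : Rg N e c s (2 * N - 1) y.1) : Pt N e c s M lm y.1 g := by
  obtain ⟨g'', h1, -⟩ := hRg.uniq N e c s M lm cx y.1 (rgMono (Nat.sub_le _ _) hy)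
  obtain ⟨g3, h2, h3⟩ := (hRg.nbr N e c s M lm cx y.1 g'' hy h1).1 y x rfl hxy.symm
  have h4 : g3 = g' := (hRg.uniq N e c s M lm cx x.1 hx).unique h2 hP
  subst h4
  have h5 : lm g'' = lm g := by
    obtain ⟨ok, hD⟩ := h1
    rw [← hl]
    exact hD.1.symm
  have h6 : g'' = g := by
    by_contra hne
    apply hMinj.two N e c s M lm cx g'' g hne _ h5
    calc M.edist g'' g ≤ M.edist g'' g3 + M.edist g3 g := SimpleGraph.edist_triangle
      _ = 2 := by
        rw [SimpleGraph.edist_eq_one_iff_adj.2 h3, SimpleGraph.edist_eq_one_iff_adj.2 hg]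
        norm_num
  subst h6
  exact h1

omit [Fintype Λ] [Fintype B] [Fintype FB] in
private theorem ed {N e : ℕ} {c : Core V Q Λ B FB} (h : CoreAx N e c) (x y : V) :
    c.G.edist x y = ((c.G.dist x y : ℕ) : ℕ∞) :=
  (h.conn.preconnected x y).coe_dist_eq_edist.symm

omit [Fintype Λ] [Fintype B] [Fintype FB] in
private theorem near {N e : ℕ} {c : Core V Q Λ B FB} (h : CoreAx N e c) {u a b : V}
    (ha : c.G.dist u a + c.G.dist u b ≤ 4 * N + 2)
    (hb : c.bs (c.lb a) = c.bs (c.lb b)) : a = b := by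
  apply h.k5 a b _ hb
  rw [ed h]
  have h1 : c.G.dist a b ≤ c.G.dist a u + c.G.dist u b := h.conn.dist_triangle
  rw [SimpleGraph.dist_comm (u := a) (v := u)] at h1
  exact_mod_cast le_trans h1 ha

omit [Fintype Λ] [Fintype B] [Fintype FB] in
private theorem step {N e : ℕ} {c : Core V Q Λ B FB} (h : CoreAx N e c) {a b : V} (u : V)
    (hab : c.G.Adj a b) : c.G.dist u b ≤ c.G.dist u a + 1 := by
  have h1 : c.G.dist u b ≤ c.G.dist u a + c.G.dist a b := h.conn.dist_triangle
  rw [SimpleGraph.dist_eq_one_iff_adj.2 hab] at h1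
  exact h1

omit [Fintype Λ] [Fintype B] [Fintype FB] in
private theorem glc {N : ℕ} {a b : Λ}
    (h : ({Kd.kap a} : Finset (Kd N Λ B FB)) = {Kd.kap b}) : a = b := by
  rw [Finset.singleton_inj] at h
  injection h

omit [Fintype Λ] [Fintype B] [Fintype FB] in
private theorem glg {N e : ℕ} {c : Core V Q Λ B FB} {q : Q} {j : ℕ} {l : Finset (Kd N Λ B FB)}
    (hj : j ≠ e) (h : gl N e c (.gho q j) = l) :
    Kd.gam (c.bs (c.lb (c.ow q))) (c.fl q) ∈ l := by
  rw [← h]
  simp [gl, hj]

end

/-- Module Inner. -/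
theorem pInner (hRg : StRg) (hTsee : StTsee) (hMinj : StMinj) (hCls : StCls) (hG1 : StGlue1)
    (hG2 : StGlue2) (hTinj : StTinj) (hPb : StPb) (hTok : StTok) (hTd : StTdist) : StInner := by
  intro V Q Λ B FB W _ _ _ N e c s M lm cx u h g g' hh hP hgg hl
  have hp := cx.par
  have hc := cx.ax
  have hs := cx.ch
  have hp1 := hp.1
  have hp2 := hp.2
  obtain ⟨okx, hDx⟩ := hP
  obtain ⟨x', okx', hDx'⟩ := (hMinj.ex N e c s M lm cx).1 g'
  have lx' : tL N e c s ⟨x', okx'⟩ = {Kd.kap (c.lb u)} := hDx'.1.trans hl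
  obtain ⟨-, -, hn⟩ := hMinj.nbr N e c s M lm cx ⟨x', okx'⟩ g' ⟨okx', hDx'⟩
  obtain ⟨y', ⟨hy1, hy2⟩, -⟩ := hn g hgg.symm
  have hy3 : tL N e c s y' = gl N e c h := hy2.trans hDx.1.symm
  have hru : s.rp u = u := okx.1
  -- the level of `h`
  have hlev : lev N c u h = 1 := by
    rcases hh with ⟨w, h1, rfl⟩ | ⟨q, h1, rfl⟩
    · simp only [lev, GH.own, GH.ht, SimpleGraph.dist_eq_one_iff_adj.2 h1]
    · simp only [lev, GH.own, GH.ht, h1, SimpleGraph.dist_self]
  have hnt : ∀ j, h ≠ .tru u j := by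
    rintro j rfl
    rcases hh with ⟨w, h1, h2⟩ | ⟨q, h1, h2⟩ <;> cases h2
  have hnf : ∀ l, h ≠ .fan u l := by
    rintro l rfl
    rcases hh with ⟨w, h1, h2⟩ | ⟨q, h1, h2⟩ <;> cases h2
  -- `x` is rigid
  have hRx : Rg N e c s (2 * N) (.nat true u h) := by
    refine (hCls.rg N e c s hp hc hs _ okx ?_).1
    rcases hh with ⟨w, h1, rfl⟩ | ⟨q, h1, rfl⟩
    · exact Or.inl ⟨u, w, h1, rfl⟩
    · exact Or.inr (Or.inl ⟨u, q, h1, rfl⟩)
  have hPx : Pt N e c s M lm (.nat true u h) g := ⟨okx, hDx⟩
  have hPx' : Pt N e c s M lm x' g' := ⟨okx', hDx'⟩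
  -- the root of the piece
  have okr : okT N e c s (.nat true u (.core u)) := by
    refine ⟨hru, trivial, Or.inl ?_⟩
    simp only [lev, GH.own, GH.ht, SimpleGraph.dist_self]
    omega
  have hroot : (TG N e c s).Adj ⟨.nat true u h, okx⟩ ⟨.nat true u (.core u), okr⟩ := by
    rcases hh with ⟨w, h1, rfl⟩ | ⟨q, h1, rfl⟩
    · refine ⟨?_, Or.inl ⟨rfl, rfl, ?_, ?_⟩⟩
      · intro h2
        have h3 := congrArg Subtype.val h2
        simp only [TH.nat.injEq, GH.core.injEq, true_and] at h3
        exact h1.ne h3.symm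
      · intro h2
        injection h2 with h3
        exact h1.ne h3.symm
      · have h4 : c.G.dist u w = 1 := SimpleGraph.dist_eq_one_iff_adj.2 h1
        exact ((hPb N e c s hp hc hs true u).1 w u (by omega) h1.symm
          (by rw [SimpleGraph.dist_self, h4])).symm
    · refine ⟨?_, Or.inl ⟨rfl, rfl, ?_, ?_⟩⟩
      · intro h2
        have h3 := congrArg Subtype.val h2
        simp at h3
      · intro h2
        cases h2
      · simp only [pb, GH.dp, le_refl, if_true, h1]
  -- levels of children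
  have child : ∀ (b : Bool) (u2 : V) (h1 h2 : GH V Q (Kd N Λ B FB)),
      okT N e c s (.nat b u2 h2) → h2 ≠ .core u2 → pb N e c s b u2 h2 = h1 →
      lev N c u2 h2 = lev N c u2 h1 + 1 := by
    intro b u2 h1 h2 ok h3 h4
    by_cases h5 : lev N c u2 h2 = 0
    · exfalso
      rcases hTok.zero N e c s hp hc hs _ ok h5 with h6 | ⟨b', u', -, h6⟩
      · cases h6
      · injection h6 with _ h7 h8
        subst h7
        exact h3 h8
    · obtain ⟨-, h6, -⟩ := hTok.ok N e c s hp hc hs _ ok h5
      simp only [tpar, h4] at h6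
      exact h6.symm
  rcases hCls.cls N e c s hp hc hs x' okx' with h1 | ⟨u2, w2, h1, rfl⟩ | ⟨u2, q2, h1, rfl⟩ |
    ⟨u2, rfl⟩ | ⟨b2, u2, rfl⟩ | rfl | ⟨u2, rfl⟩ | ⟨u2, j, rfl⟩ | ⟨u2, l, rfl⟩ | ⟨u2, q2, j, h1, rfl⟩
  · -- strong
    exfalso
    obtain ⟨x1, y1, h2, h3, h4⟩ := (hRg.nbr N e c s M lm cx x' g' h1 hPx').2 g hgg.symm
    have h5 := hRg.uniq' N e c s M lm cx _ _ g hRx hPx h4
    have h6 : x1 = ⟨x', okx'⟩ := Subtype.ext h2
    have h7 : y1 = ⟨.nat true u h, okx⟩ := Subtype.ext h5.symm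
    subst h6; subst h7
    have h8 : (⟨x', okx'⟩ : TV N e c s) ≠ ⟨.nat true u (.core u), okr⟩ := by
      intro h9
      have h10 := congrArg Subtype.val h9
      simp only at h10
      subst h10
      exact hCls.free N e c s hp hc hs _ okx' (Or.inr (Or.inl ⟨u, rfl⟩))
        (rgMono (Nat.sub_le _ _) h1)
    refine hTinj.inj N e c s hp hc hs _ _ h8 ?_ ?_
    · calc (TG N e c s).edist ⟨x', okx'⟩ ⟨.nat true u (.core u), okr⟩
          ≤ (TG N e c s).edist ⟨x', okx'⟩ ⟨.nat true u h, okx⟩ +
            (TG N e c s).edist ⟨.nat true u h, okx⟩ ⟨.nat true u (.core u), okr⟩ :=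
            SimpleGraph.edist_triangle
        _ = 2 := by
          rw [SimpleGraph.edist_eq_one_iff_adj.2 h3, SimpleGraph.edist_eq_one_iff_adj.2 hroot]
          norm_num
    · rw [lx']; rfl
  · -- boundary core hub
    exfalso
    have h2 : c.lb w2 = c.lb u := glc (N := N) lx'
    have h12 : c.G.dist u2 w2 = 1 := SimpleGraph.dist_eq_one_iff_adj.2 h1
    have hRx' := (hCls.rg N e c s hp hc hs _ okx' (Or.inl ⟨u2, w2, h1, rfl⟩)).1
    rcases nbrNat (x := ⟨_, okx'⟩) rfl hy1 with ⟨h3, h4⟩ | ⟨h3, h4, h5, h6⟩ | h3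
    · -- the root
      rw [(hPb N e c s hp hc hs true u2).1 w2 u2 (by omega) h1.symm
          (by rw [SimpleGraph.dist_self, h12])] at h4
      have h7 : gl N e c h = {Kd.kap (c.lb u2)} := by
        rw [← hy3]; unfold tL; rw [h4]; rfl
      rcases hh with ⟨w, h8, rfl⟩ | ⟨q, h8, rfl⟩
      · have h9 : c.lb w = c.lb u2 := glc (N := N) h7
        exact hG2 N e c s M lm cx u w u2 w2 g g' h8 h1 hPx hPx' hgg h2 h9
      · have := glg (by omega) h7
        simp at this
    · -- a child
      have oky := y'.2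
      rw [h5] at oky
      have h7 := child _ _ _ _ oky h4 h6
      have h8 : lev N c u2 (GH.core w2 : GH V Q (Kd N Λ B FB)) = 1 := by
        simp only [lev, GH.own, GH.ht, h12]
      have h9 : Rg N e c s (2 * N - 1) (.nat true u2 h3) := by
        refine hCls.strong N e c s hp hc hs true u2 h3 oky (Or.inl ⟨rfl, by omega, ?_, ?_⟩)
        · rintro j rfl
          simp only [pb, GH.dp] at h6
          split_ifs at h6
          injection h6 with h10
          exact h1.ne h10
        · rintro l rfl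
          simp only [pb, GH.dp] at h6
          cases h6
      have h10 : Pt N e c s M lm y'.1 g :=
        sss hRg hMinj cx (x := ⟨_, okx'⟩) hRx' hPx' hgg.symm hy1 hy2 (by rw [h5]; exact h9)
      have h11 := hRg.uniq' N e c s M lm cx _ _ g hRx hPx h10
      rw [h5] at h11
      injection h11 with _ h13 h14
      subst h13; subst h14
      omega
    · -- a cap
      have oky := y'.2
      rw [h3] at oky
      have := oky.2.2.1
      simp only [lev, GH.own, GH.ht, h12, dep, if_true] at this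
      omega
  · -- boundary ghost
    exfalso
    have := glg (by omega) lx'
    simp at this
  · -- the centre of a piece `false`
    exfalso
    have h2 : c.lb u2 = c.lb u := glc (N := N) lx'
    have hRx' := (hCls.rg N e c s hp hc hs _ okx' (Or.inr (Or.inr (Or.inl ⟨u2, rfl⟩)))).1
    rcases nbrNat (x := ⟨_, okx'⟩) rfl hy1 with ⟨h3, h4⟩ | ⟨h3, h4, h5, h6⟩ | h3
    · exact h3 rfl
    · have oky := y'.2
      rw [h5] at oky
      have h7 := child _ _ _ _ oky h4 h6
      by_cases h8 : ∃ q j, c.ow q = u2 ∧ h3 = .gho q j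
      · obtain ⟨q, j, h9, rfl⟩ := h8
        have hj : j = 1 := by
          simp only [lev, GH.own, GH.ht, h9, SimpleGraph.dist_self] at h7
          omega
        subst hj
        have h10 : gl N e c (.gho q 1) = gl N e c h := by
          rw [← hy3]; unfold tL; rw [h5]; rfl
        rcases hh with ⟨w, h11, rfl⟩ | ⟨q', h11, rfl⟩
        · have := glg (by omega) h10
          simp [gl] at this
        · subst h11
          exact hG1 N e c s M lm cx q' u2 g g' hPx hPx' hgg h2
      · push Not at h8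
        have h9 : Rg N e c s (2 * N - 1) (.nat false u2 h3) := by
          refine hCls.strong N e c s hp hc hs false u2 h3 oky (Or.inr ⟨rfl, by omega, ?_⟩)
          intro q j h10
          exact h8 q j h10
        have h10 : Pt N e c s M lm y'.1 g :=
          sss hRg hMinj cx (x := ⟨_, okx'⟩) hRx' hPx' hgg.symm hy1 hy2 (by rw [h5]; exact h9)
        have h11 := hRg.uniq' N e c s M lm cx _ _ g hRx hPx h10
        rw [h5] at h11
        injection h11 with h12
        cases h12
    · have oky := y'.2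
      rw [h3] at oky
      have := oky.2.2.1
      simp only [lev, GH.own, GH.ht, SimpleGraph.dist_self, dep, Bool.false_eq_true, if_false] at this
      omega
  · -- a path hub
    exfalso
    have h1 : Kd.fg 2 ∈ tL N e c s ⟨.pth b2 u2 (2 * N), okx'⟩ := by
      unfold tL tl; simp
    rw [lx'] at h1
    simp at h1
  · exfalso
    have h1 : Kd.fg 3 ∈ tL N e c s ⟨.rt, okx'⟩ := by
      unfold tL tl; simp
    rw [lx'] at h1
    simp at h1
  · -- the main case
    have h2 : c.lb u2 = c.lb u := glc (N := N) lx'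
    have lem : ∀ z2 z', c.G.dist u2 z2 < 2 * N → c.G.dist u z' ≤ 2 * N →
        c.bs (c.lb z2) = c.bs (c.lb z') → c.lb z2 = c.lb z' := by
      intro z2 z' h3 h4 h5
      have okz : okT N e c s (.nat true u2 (.core z2)) := by
        refine ⟨okx'.1, trivial, Or.inl ?_⟩
        simp only [lev, GH.own, GH.ht, dep, if_true]
        omega
      obtain ⟨t', h6, -, h7, -⟩ := hDx'.2.1 ⟨_, okz⟩
      have h8 := hTd.root N e c s hp hc hs ⟨_, okx'⟩ ⟨_, okz⟩ true u2 rfl rfl
      have h8' : tlev N c (TH.nat true u2 (GH.core z2) : TH V Q (Kd N Λ B FB)) = c.G.dist u2 z2 := by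
        simp only [tlev, lev, GH.own, GH.ht, add_zero]
      simp only [h8'] at h8
      have h9 := (h7 _ (by omega)).1 h8
      have h10 : M.edist g t' ≤ ((1 + c.G.dist u2 z2 : ℕ) : ℕ∞) := by
        calc M.edist g t' ≤ M.edist g g' + M.edist g' t' := SimpleGraph.edist_triangle
          _ = _ := by rw [SimpleGraph.edist_eq_one_iff_adj.2 hgg, h9]; push_cast; rfl
      obtain ⟨d, h11⟩ : ∃ d : ℕ, M.edist g t' = (d : ℕ∞) :=
        ENat.ne_top_iff_exists.1 (ne_top_of_le_ne_top (ENat.natCast_ne_top _) h10) |>.imp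
          fun _ h => h.symm
      have h12 : d ≤ 1 + c.G.dist u2 z2 := by
        rw [h11] at h10; exact_mod_cast h10
      obtain ⟨t, h13, -, h14, -⟩ := hDx.2.2 t'
      have h15 := (h14 d (by omega)).2 h11
      obtain ⟨z3, h16, h17⟩ := hTsee.core N e c s hp hc hs _ t true u h (c.lb z2) d rfl hnt hnf h15
        (by omega) (by omega) (by rw [h13, ← h6]; rfl)
      have okt := t.2
      rw [h16] at okt
      have h18 : c.G.dist u z3 ≤ 2 * N := by
        have h19 := okt.2.2
        simp only [lev, GH.own, GH.ht, dep, if_true, Bool.true_eq_false, false_and, or_false] at h19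
        omega
      have h20 : z3 = z' := near hc (u := u) (by omega) (by rw [h17, h5])
      rw [← h20, h17]
    have pred : ∀ (a z : V) (d : ℕ), c.G.dist a z = d + 1 → ∃ w, c.G.Adj w z ∧ c.G.dist a w = d := by
      intro a z d h3
      have h4 : a ≠ z := by
        rintro rfl
        rw [SimpleGraph.dist_self] at h3
        omega
      obtain ⟨h5, h6⟩ := hs.pr a z h4
      exact ⟨_, h5.symm, by omega⟩
    have cA : ∀ d, d < 2 * N → ∀ z, c.G.dist u z = d →
        ∃ z2, c.G.dist u2 z2 ≤ d ∧ c.lb z2 = c.lb z := by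
      intro d
      induction d with
      | zero =>
        intro _ z hz
        have h3 : u = z := (hc.conn.dist_eq_zero_iff).1 hz
        subst h3
        exact ⟨u2, by rw [SimpleGraph.dist_self], h2⟩
      | succ d ih =>
        intro hd z hz
        obtain ⟨w, h3, h4⟩ := pred u z d hz
        obtain ⟨w2, h5, h6⟩ := ih (by omega) w h4
        obtain ⟨z2, h7, h8⟩ := hc.k6 w w2 z h6.symm h3
        have h9 := step hc u2 h7
        exact ⟨z2, by omega, lem z2 z (by omega) (by omega) h8⟩
    have cB : ∀ d, d < 2 * N → ∀ z2, c.G.dist u2 z2 = d →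
        ∃ z, c.G.dist u z ≤ d ∧ c.lb z = c.lb z2 := by
      intro d
      induction d with
      | zero =>
        intro _ z hz
        have h3 : u2 = z := (hc.conn.dist_eq_zero_iff).1 hz
        subst h3
        exact ⟨u, by rw [SimpleGraph.dist_self], h2.symm⟩
      | succ d ih =>
        intro hd z2 hz
        obtain ⟨w2, h3, h4⟩ := pred u2 z2 d hz
        obtain ⟨w, h5, h6⟩ := ih (by omega) w2 h4
        obtain ⟨z, h7, h8⟩ := hc.k6 w2 w z2 h6.symm h3
        have h9 := step hc u h7
        exact ⟨z, by omega, (lem z2 z (by omega) (by omega) h8.symm).symm⟩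
    have hTS : TS N c u2 = TS N c u := by
      ext ⟨l, d⟩
      constructor
      · rintro ⟨h3, z, h4, h5⟩
        simp only at h3 h4 h5
        obtain ⟨z2, h6, h7⟩ := cB d h3 z h5
        obtain ⟨z3, h8, h9⟩ := cA _ (by omega) z2 rfl
        have h10 : z3 = z := near hc (u := u2) (by omega) (by rw [h9, h7])
        subst h10
        refine ⟨h3, z2, by rw [h7, h4], ?_⟩
        simp only
        omega
      · rintro ⟨h3, z, h4, h5⟩
        simp only at h3 h4 h5
        obtain ⟨z2, h6, h7⟩ := cA d h3 z h5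
        obtain ⟨z3, h8, h9⟩ := cB _ (by omega) z2 rfl
        have h10 : z3 = z := near hc (u := u) (by omega) (by rw [h9, h7])
        subst h10
        refine ⟨h3, z2, by rw [h7, h4], ?_⟩
        simp only
        omega
    have h3 : u2 = u := by
      rw [← okx'.1, ← hru]
      exact hs.rp2 _ _ hTS
    subst h3
    exact hPx'
  · exfalso
    have h1 : Kd.del (c.lb u2) ∈ tL N e c s ⟨.nat true u2 (.tru u2 j), okx'⟩ := by
      unfold tL tl gl; simp
    rw [lx'] at h1
    simp at h1
  · -- own fan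
    exfalso
    rcases nbrNat (x := ⟨_, okx'⟩) rfl hy1 with ⟨h3, h4⟩ | ⟨h3, h4, h5, h6⟩ | h3
    · have h5 : gl N e c (.tru u2 (2 * N - 1)) = gl N e c h := by
        rw [← hy3]; unfold tL; rw [h4]; rfl
      have h6 : Kd.del (c.lb u2) ∈ gl N e c h := by
        rw [← h5]; simp [gl]
      rcases hh with ⟨w, h7, rfl⟩ | ⟨q, h7, rfl⟩
      · simp [gl] at h6
      · simp only [gl] at h6
        split_ifs at h6 with h8
        · simp at h6
        · simp [piK] at h6
    · cases h3 with
      | core z =>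
        simp only [pb] at h6
        split_ifs at h6
      | gho q j =>
        simp only [pb, GH.dp] at h6
        split_ifs at h6
      | tru z j =>
        simp only [pb, GH.dp] at h6
        split_ifs at h6
      | fan z l =>
        simp only [pb, GH.dp] at h6
        cases h6
    · have oky := y'.2
      rw [h3] at oky
      exact oky.2.2.2.1 rfl l rfl
  · -- own ghost of a piece `false`
    exfalso
    by_cases h2 : j = e
    · subst h2
      have h3 : gl N j c (.gho q2 j) = {Kd.kap (c.lb u)} := lx'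
      simp only [gl, if_true] at h3
      have h4 := ((hPb (K := Kd N Λ B FB) N j c s hp hc hs true u2).2.2 q2 h1)
      have h5 : Kd.kap (c.lb (c.ow ((c.nx^[j]) q2))) ∈ ({Kd.kap (c.lb u)} : Finset (Kd N Λ B FB)) := by
        rw [← h3]; simp
      have h6 : Kd.kap (c.lb (c.ow ((c.nx^[3 * j]) q2))) ∈
          ({Kd.kap (c.lb u)} : Finset (Kd N Λ B FB)) := by
        rw [← h3]; simp
      rw [Finset.mem_singleton] at h5 h6
      injection h5 with h5
      injection h6 with h6
      apply h4.2.1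
      apply near hc (u := u2)
      · rw [h4.2.2.2.1, h4.2.2.2.2]; omega
      · rw [h5, h6]
    · have := glg h2 lx'
      simp at this

end Pool.Agent.Helper74.LD
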